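import Mathlib.Analysis.InnerProductSpace.PiL2
import Mathlib.Topology.Order.IntermediateValue

/-!
# Straight drawings of the complete bipartite graph with 3 + 3 vertices

For any points `p 0, p 1, p 2, q 0, q 1, q 2` of the plane there are `i ≠ k` and `j ≠ l` such that the
segments from `p i` to `q j` and from `p k` to `q l` meet.
-/

set_option autoImplicit false

namespace E8K

open Filter Topology

/-- the median of three reals -/
noncomputable def med (a b c : ℝ) : ℝ := max (min a b) (min (max a b) c)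

theorem med_neg (a b c : ℝ) : med (-a) (-b) (-c) = -med a b c := by
  unfold med
  rcases le_total a b with h1 | h1 <;> rcases le_total b c with h2 | h2 <;>
    rcases le_total a c with h3 | h3 <;>
    simp only [min_def, max_def] <;> split_ifs <;> linarith

theorem med_zero {x : Fin 3 → ℝ} (h : med (x 0) (x 1) (x 2) = 0) :
    ∃ i k m : Fin 3, i ≠ k ∧ i ≠ m ∧ k ≠ m ∧ 0 ≤ x i ∧ x k ≤ 0 ∧ x m = 0 := by
  unfold med at h
  rcases le_total (x 0) (x 1) with h1 | h1
  · rw [min_eq_left h1, max_eq_right h1] at h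
    rcases le_total (x 1) (x 2) with h2 | h2
    · rw [min_eq_left h2, max_eq_right h1] at h
      exact ⟨2, 0, 1, by decide, by decide, by decide, by linarith, by linarith, h⟩
    · rw [min_eq_right h2] at h
      rcases le_total (x 0) (x 2) with h3 | h3
      · rw [max_eq_right h3] at h
        exact ⟨1, 0, 2, by decide, by decide, by decide, by linarith, by linarith, h⟩
      · rw [max_eq_left h3] at h
        exact ⟨1, 2, 0, by decide, by decide, by decide, by linarith, by linarith, h⟩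
  · rw [min_eq_right h1, max_eq_left h1] at h
    rcases le_total (x 0) (x 2) with h2 | h2
    · rw [min_eq_left h2, max_eq_right h1] at h
      exact ⟨2, 1, 0, by decide, by decide, by decide, by linarith, by linarith, h⟩
    · rw [min_eq_right h2] at h
      rcases le_total (x 1) (x 2) with h3 | h3
      · rw [max_eq_right h3] at h
        exact ⟨0, 1, 2, by decide, by decide, by decide, by linarith, by linarith, h⟩
      · rw [max_eq_left h3] at h
        exact ⟨0, 2, 1, by decide, by decide, by decide, by linarith, by linarith, h⟩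

theorem sum3 {V : Type} [AddCommGroup V] (f : Fin 3 → V) {i k m : Fin 3} (h1 : i ≠ k) (h2 : i ≠ m)
    (h3 : k ≠ m) : ∑ a, f a = f i + f k + f m := by
  rw [Fin.sum_univ_three]
  fin_cases i <;> fin_cases k <;> fin_cases m <;> simp_all <;> abel

theorem cross_of {V : Type} [AddCommGroup V] [Module ℝ V] {a b c d : V} {x y x' y' : ℝ}
    (hx : 0 ≤ x) (hx' : 0 ≤ x') (hy : 0 ≤ y) (hy' : 0 ≤ y') (hs : x + y = x' + y')
    (hp : 0 < x + y) (h : x • a + y • b = x' • c + y' • d) :
    ∃ s t : ℝ, (0 ≤ s ∧ s ≤ 1) ∧ (0 ≤ t ∧ t ≤ 1) ∧ (1 - s) • a + s • b = (1 - t) • c + t • d := by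
  refine ⟨y / (x + y), y' / (x + y), ⟨by positivity, ?_⟩, ⟨by positivity, ?_⟩, ?_⟩
  · rw [div_le_one hp]; linarith
  · rw [div_le_one hp]; linarith
  · have e1 : 1 - y / (x + y) = (x + y)⁻¹ * x := by field_simp; ring
    have e2 : y / (x + y) = (x + y)⁻¹ * y := by field_simp
    have e3 : 1 - y' / (x + y) = (x + y)⁻¹ * x' := by field_simp; linarith
    have e4 : y' / (x + y) = (x + y)⁻¹ * y' := by field_simp
    rw [e1, e2, e3, e4, mul_smul, mul_smul, mul_smul, mul_smul, ← smul_add, ← smul_add, h]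

/-- two disjoint edges of the drawing meet -/
def Meet (p q : Fin 3 → ℝ × ℝ) : Prop :=
  ∃ i k j l : Fin 3, i ≠ k ∧ j ≠ l ∧ ∃ s t : ℝ, (0 ≤ s ∧ s ≤ 1) ∧ (0 ≤ t ∧ t ≤ 1) ∧
    (1 - s) • p i + s • q j = (1 - t) • p k + t • q l

/-- the determinant of three points -/
def D3 (a b c : ℝ × ℝ) : ℝ := (b.1 - a.1) * (c.2 - a.2) - (b.2 - a.2) * (c.1 - a.1)

theorem meet_of_ne {p q : Fin 3 → ℝ × ℝ} (h : D3 (p 0) (p 1) (p 2) ≠ 0) : Meet p q := by
  -- barycentric coordinates
  obtain ⟨β, hβ1, hβ⟩ : ∃ β : Fin 3 → Fin 3 → ℝ, (∀ j, ∑ i, β j i = 1) ∧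
      ∀ j, q j = ∑ i, β j i • p i := by
    refine ⟨fun j => ![D3 (q j) (p 1) (p 2) / D3 (p 0) (p 1) (p 2),
      D3 (p 0) (q j) (p 2) / D3 (p 0) (p 1) (p 2), D3 (p 0) (p 1) (q j) / D3 (p 0) (p 1) (p 2)],
      fun j => ?_, fun j => ?_⟩
    · rw [Fin.sum_univ_three]
      simp only [Matrix.cons_val_zero, Matrix.cons_val_one, Matrix.cons_val_two, Matrix.head_cons,
        Matrix.tail_cons]
      rw [← add_div, ← add_div, div_eq_one_iff_eq h]
      unfold D3
      ring
    · rw [Fin.sum_univ_three]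
      simp only [Matrix.cons_val_zero, Matrix.cons_val_one, Matrix.cons_val_two, Matrix.head_cons,
        Matrix.tail_cons]
      ext
      · simp only [Prod.fst_add, Prod.smul_fst, smul_eq_mul]
        rw [div_mul_eq_mul_div, div_mul_eq_mul_div, div_mul_eq_mul_div, ← add_div, ← add_div,
          eq_div_iff h]
        unfold D3
        ring
      · simp only [Prod.snd_add, Prod.smul_snd, smul_eq_mul]
        rw [div_mul_eq_mul_div, div_mul_eq_mul_div, div_mul_eq_mul_div, ← add_div, ← add_div,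
          eq_div_iff h]
        unfold D3
        ring
  -- two medians of the same sign
  set m : Fin 3 → ℝ := fun j => med (β j 0) (β j 1) (β j 2) with hm
  obtain ⟨j, l, hjl, hsg⟩ : ∃ j l : Fin 3, j ≠ l ∧ ((0 ≤ m j ∧ 0 ≤ m l) ∨ (m j ≤ 0 ∧ m l ≤ 0)) := by
    rcases le_total 0 (m 0) with h0 | h0 <;> rcases le_total 0 (m 1) with h1 | h1 <;>
      rcases le_total 0 (m 2) with h2 | h2
    · exact ⟨0, 1, by decide, Or.inl ⟨h0, h1⟩⟩
    · exact ⟨0, 1, by decide, Or.inl ⟨h0, h1⟩⟩
    · exact ⟨0, 2, by decide, Or.inl ⟨h0, h2⟩⟩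
    · exact ⟨1, 2, by decide, Or.inr ⟨h1, h2⟩⟩
    · exact ⟨1, 2, by decide, Or.inl ⟨h1, h2⟩⟩
    · exact ⟨0, 2, by decide, Or.inr ⟨h0, h2⟩⟩
    · exact ⟨0, 1, by decide, Or.inr ⟨h0, h1⟩⟩
    · exact ⟨0, 1, by decide, Or.inr ⟨h0, h1⟩⟩
  let F : ℝ → ℝ := fun s => med ((1 - s) * β j 0 - s * β l 0) ((1 - s) * β j 1 - s * β l 1)
    ((1 - s) * β j 2 - s * β l 2)
  have hF : Continuous F := by
    simp only [F, med]
    fun_prop
  have hF0 : F 0 = m j := by simp [F, hm]
  have hF1 : F 1 = -m l := by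
    simp only [F, hm, sub_self, zero_mul, one_mul, zero_sub]
    exact med_neg _ _ _
  obtain ⟨s, hs, hs0⟩ : ∃ s ∈ Set.Icc (0 : ℝ) 1, F s = 0 := by
    rcases hsg with ⟨h1, h2⟩ | ⟨h1, h2⟩
    · have := intermediate_value_Icc' (zero_le_one' ℝ) hF.continuousOn
      exact this ⟨by rw [hF1]; linarith, by rw [hF0]; exact h1⟩
    · have := intermediate_value_Icc (zero_le_one' ℝ) hF.continuousOn
      exact this ⟨by rw [hF0]; exact h1, by rw [hF1]; linarith⟩
  set x : Fin 3 → ℝ := fun i => (1 - s) * β j i - s * β l i with hx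
  obtain ⟨i, k, n, hik, hin, hkn, hi, hk, hn⟩ := med_zero (x := x) hs0
  have hsum : x i + x k = 1 - 2 * s := by
    have h1 : ∑ a, x a = (1 - s) * ∑ a, β j a - s * ∑ a, β l a := by
      rw [Finset.mul_sum, Finset.mul_sum, ← Finset.sum_sub_distrib]
    rw [hβ1, hβ1, sum3 x hik hin hkn, hn] at h1
    linarith
  have hrel : (1 - s) • q j - s • q l = x i • p i + x k • p k := by
    have h1 : ∑ a, x a • p a = (1 - s) • q j - s • q l := by
      rw [hβ j, hβ l, Finset.smul_sum, Finset.smul_sum, ← Finset.sum_sub_distrib]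
      refine Finset.sum_congr rfl fun a _ => ?_
      rw [hx, smul_smul, smul_smul, ← sub_smul]
    rw [← h1, sum3 (fun a => x a • p a) hik hin hkn, hn, zero_smul, add_zero]
  obtain ⟨s', t', h1, h2, h3⟩ := cross_of (a := p k) (b := q j) (c := p i) (d := q l) (x := -x k)
    (y := 1 - s) (x' := x i) (y' := s) (by linarith) hi (by linarith [hs.2]) hs.1 (by linarith)
    (by
      rcases eq_or_lt_of_le hs.2 with h | h
      · linarith
      · linarith)
    (by
      rw [neg_smul, neg_add_eq_sub, sub_eq_iff_eq_add]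
      rw [sub_eq_iff_eq_add] at hrel
      rw [hrel]
      abel)
  exact ⟨k, i, j, l, hik.symm, hjl, s', t', h1, h2, h3⟩

theorem closed_meet (q : Fin 3 → ℝ × ℝ) : IsClosed {p | Meet p q} := by
  have e : {p | Meet p q} = ⋃ (i : Fin 3) (k : Fin 3) (j : Fin 3) (l : Fin 3) (_ : i ≠ k ∧ j ≠ l),
      Prod.fst '' {z : (Fin 3 → ℝ × ℝ) × (Set.Icc (0 : ℝ) 1 × Set.Icc (0 : ℝ) 1) |
        (1 - (z.2.1 : ℝ)) • z.1 i + (z.2.1 : ℝ) • q j =
          (1 - (z.2.2 : ℝ)) • z.1 k + (z.2.2 : ℝ) • q l} := by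
    ext p
    simp only [Set.mem_iUnion, Set.mem_image, Set.mem_ofPred_eq, exists_prop]
    constructor
    · rintro ⟨i, k, j, l, h1, h2, s, t, hs, ht, h⟩
      exact ⟨i, k, j, l, ⟨h1, h2⟩, (p, (⟨s, hs⟩, ⟨t, ht⟩)), h, rfl⟩
    · rintro ⟨i, k, j, l, ⟨h1, h2⟩, ⟨p', ⟨s, hs⟩, ⟨t, ht⟩⟩, h, rfl⟩
      exact ⟨i, k, j, l, h1, h2, s, t, hs, ht, h⟩
  rw [e]
  refine isClosed_iUnion_of_finite fun i => isClosed_iUnion_of_finite fun k =>
    isClosed_iUnion_of_finite fun j => isClosed_iUnion_of_finite fun l =>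
    isClosed_iUnion_of_finite fun _ => ?_
  exact isClosedMap_fst_of_compactSpace _ (isClosed_eq (by fun_prop) (by fun_prop))

/-- **Two disjoint edges of a straight drawing of the graph with 3 + 3 vertices meet.** -/
theorem meet (p q : Fin 3 → ℝ × ℝ) : Meet p q := by
  by_cases h : D3 (p 0) (p 1) (p 2) = 0
  · let e : Fin 3 → ℝ × ℝ := ![(0, 0), (1, 0), (0, 1)]
    set b : ℝ := ((p 1).1 - (p 0).1) + ((p 2).2 - (p 0).2) with hb
    have hD : ∀ ε : ℝ, D3 ((p + ε • e) 0) ((p + ε • e) 1) ((p + ε • e) 2) = ε * (b + ε) := by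
      intro ε
      unfold D3 at h
      simp only [D3, e, hb, Pi.add_apply, Pi.smul_apply, Matrix.cons_val_zero, Matrix.cons_val_one,
        Matrix.cons_val_two, Matrix.head_cons, Matrix.tail_cons, Prod.fst_add, Prod.snd_add,
        Prod.smul_fst, Prod.smul_snd, smul_eq_mul]
      linear_combination h
    have hev : ∀ᶠ ε in 𝓝[>] (0 : ℝ), b + ε ≠ 0 := by
      by_cases hb0 : b = 0
      · filter_upwards [self_mem_nhdsWithin] with ε hε
        rw [hb0, zero_add]
        exact (ne_of_gt hε)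
      · have hc : Continuous fun ε : ℝ => b + ε := by fun_prop
        have h1 : ∀ᶠ ε in 𝓝 (0 : ℝ), b + ε ≠ 0 :=
          hc.continuousAt.eventually_ne (by rw [add_zero]; exact hb0)
        exact h1.filter_mono nhdsWithin_le_nhds
    have hlim : Tendsto (fun ε : ℝ => p + ε • e) (𝓝[>] 0) (𝓝 p) := by
      have hc : Continuous fun ε : ℝ => p + ε • e := by fun_prop
      have h1 := hc.tendsto 0
      rw [zero_smul, add_zero] at h1
      exact h1.mono_left nhdsWithin_le_nhds
    refine (closed_meet q).mem_of_tendsto hlim ?_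
    filter_upwards [hev, self_mem_nhdsWithin] with ε h1 h2
    refine meet_of_ne ?_
    rw [hD]
    exact mul_ne_zero (ne_of_gt h2) h1
  · exact meet_of_ne h

end E8K
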