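import Pool.Agent.C1S.Cl

/-!
# Labels which come from supporting planes

For pairwise tangent positive homothets `x k + c k K` of a centrally symmetric body the label of two members can be taken
from a plane which separates them; it is tight at `k` if and only if this plane supports the member `k`.
-/

set_option autoImplicit false

namespace E8K

open C1S

variable {m : ℕ} {K : Set (EuclideanSpace ℝ (Fin m))}

/-- The plane `{y : ⟨u, y⟩ = t}` supports `A` from below: `A` lies above it and meets it. -/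
def Above (u : EuclideanSpace ℝ (Fin m)) (t : ℝ) (A : Set (EuclideanSpace ℝ (Fin m))) : Prop :=
  (∀ y ∈ A, t ≤ inner ℝ u y) ∧ ∃ y ∈ A, inner ℝ u y = t

/-- `A` lies below the plane `{y : ⟨u, y⟩ = t}` and meets it. -/
def Below (u : EuclideanSpace ℝ (Fin m)) (t : ℝ) (A : Set (EuclideanSpace ℝ (Fin m))) : Prop :=
  (∀ y ∈ A, inner ℝ u y ≤ t) ∧ ∃ y ∈ A, inner ℝ u y = t

/-- `f i j` is a label of the members `i`, `j`. -/
def Labels {n D : ℕ} (W : Fin n → Fin (D + 1) → ℝ) (f : Fin n → Fin n → Fin (D + 1) → ℝ) : Prop :=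
  ∀ i j, i ≠ j → dot (f i j) (W i) = 1 ∧ dot (f i j) (W j) = -1 ∧ ∀ k, |dot (f i j) (W k)| ≤ 1

theorem above_of {z u : EuclideanSpace ℝ (Fin m)} {t : ℝ} (hz : ∀ y ∈ K, z + z - y ∈ K)
    (hu : ∀ y ∈ K, |inner ℝ u (y - z)| ≤ 1) (hp : ∃ p ∈ K, inner ℝ u (p - z) = 1) {c : ℝ} (hc : 0 < c)
    {x : EuclideanSpace ℝ (Fin m)} : inner ℝ u (x + c • z) - t = c ↔ Above u t (hom K c x) := by
  obtain ⟨p, hp, hp1⟩ := hp
  have e : ∀ y, inner ℝ u (x + c • y) = inner ℝ u (x + c • z) + c * inner ℝ u (y - z) := by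
    intro y
    rw [inner_add_right, inner_add_right, inner_sub_right, real_inner_smul_right, real_inner_smul_right]
    ring
  have ep : inner ℝ u (x + c • (z + z - p)) = inner ℝ u (x + c • z) - c := by
    rw [e, show z + z - p - z = -(p - z) by abel, inner_neg_right, hp1]
    ring
  constructor
  · intro h
    refine ⟨?_, x + c • (z + z - p), ⟨_, hz p hp, rfl⟩, ?_⟩
    · rintro _ ⟨y, hy, rfl⟩
      simp only
      rw [e]
      have h1 := mul_le_mul_of_nonneg_left (abs_le.1 (hu y hy)).1 hc.le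
      linarith
    · rw [ep]
      linarith
  · rintro ⟨h1, q, ⟨y, hy, rfl⟩, hq⟩
    simp only at hq
    have h2 := h1 _ ⟨_, hz p hp, rfl⟩
    simp only at h2
    rw [ep] at h2
    rw [e] at hq
    have h3 := mul_le_mul_of_nonneg_left (abs_le.1 (hu y hy)).1 hc.le
    linarith

theorem below_of {z u : EuclideanSpace ℝ (Fin m)} {t : ℝ}
    (hu : ∀ y ∈ K, |inner ℝ u (y - z)| ≤ 1) (hp : ∃ p ∈ K, inner ℝ u (p - z) = 1) {c : ℝ} (hc : 0 < c)
    {x : EuclideanSpace ℝ (Fin m)} : inner ℝ u (x + c • z) - t = -c ↔ Below u t (hom K c x) := by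
  obtain ⟨p, hp, hp1⟩ := hp
  have e : ∀ y, inner ℝ u (x + c • y) = inner ℝ u (x + c • z) + c * inner ℝ u (y - z) := by
    intro y
    rw [inner_add_right, inner_add_right, inner_sub_right, real_inner_smul_right, real_inner_smul_right]
    ring
  have ep : inner ℝ u (x + c • p) = inner ℝ u (x + c • z) + c := by
    rw [e, hp1]
    ring
  constructor
  · intro h
    refine ⟨?_, x + c • p, ⟨_, hp, rfl⟩, ?_⟩
    · rintro _ ⟨y, hy, rfl⟩
      simp only
      rw [e]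
      have h1 := mul_le_mul_of_nonneg_left (abs_le.1 (hu y hy)).2 hc.le
      linarith
    · rw [ep]
      linarith
  · rintro ⟨h1, q, ⟨y, hy, rfl⟩, hq⟩
    simp only at hq
    have h2 := h1 _ ⟨_, hp, rfl⟩
    simp only at h2
    rw [ep] at h2
    rw [e] at hq
    have h3 := mul_le_mul_of_nonneg_left (abs_le.1 (hu y hy)).2 hc.le
    linarith

/-- **Labels from separating planes.** -/
theorem klabels (hK : Convex ℝ K) (hKc : IsCompact K) (hKi : (interior K).Nonempty)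
    {z : EuclideanSpace ℝ (Fin m)} (hz : ∀ y ∈ K, z + z - y ∈ K) {n : ℕ} {c : Fin n → ℝ}
    {x : Fin n → EuclideanSpace ℝ (Fin m)} (hc : ∀ i, 0 < c i)
    (ht : ∀ i j, i ≠ j → (hom K (c i) (x i) ∩ hom K (c j) (x j)).Nonempty ∧
      interior (hom K (c i) (x i)) ∩ interior (hom K (c j) (x j)) = ∅) :
    ∃ (u : Fin n → Fin n → EuclideanSpace ℝ (Fin m)) (t : Fin n → Fin n → ℝ),
      (∀ i j, i ≠ j → (∀ y ∈ K, |inner ℝ (u i j) (y - z)| ≤ 1) ∧ ∃ p ∈ K, inner ℝ (u i j) (p - z) = 1) ∧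
      Labels (vec c x z) fun i j => (Fin.snoc (fun a => u i j a) (-(t i j)) : Fin (m + 1) → ℝ) := by
  have key : ∀ i j, ∃ (u : EuclideanSpace ℝ (Fin m)) (t : ℝ), i ≠ j →
      (∀ y ∈ K, |inner ℝ u (y - z)| ≤ 1) ∧ (∃ p ∈ K, inner ℝ u (p - z) = 1) ∧
      inner ℝ u (x i + c i • z) - t = c i ∧ inner ℝ u (x j + c j • z) - t = - c j ∧
      ∀ k, |inner ℝ u (x k + c k • z) - t| ≤ c k := by
    intro i j
    by_cases hij : i = j
    · exact ⟨0, 0, fun h => absurd hij h⟩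
    obtain ⟨u, t, h1, h2, h3, h4⟩ := exists_sep hK hKc hKi hz (hc i) (hc j) (ht i j hij).1
      (ht i j hij).2
    refine ⟨u, t, fun _ => ⟨h1, h2, h3, h4, fun k => ?_⟩⟩
    rw [abs_le]
    constructor
    · by_cases hki : k = i
      · subst hki
        rw [h3]; linarith [hc k]
      · exact sep_other h1 (hc i) (hc k) (ht i k (Ne.symm hki)).1 h3
    · by_cases hkj : k = j
      · subst hkj
        rw [h4]; linarith [hc k]
      · exact sep_other' h1 (hc j) (hc k) (ht j k (Ne.symm hkj)).1 h4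
  choose u t hut using key
  refine ⟨u, t, fun i j hij => ⟨(hut i j hij).1, (hut i j hij).2.1⟩, fun i j hij => ?_⟩
  obtain ⟨-, -, h3, h4, h5⟩ := hut i j hij
  refine ⟨?_, ?_, fun k => ?_⟩
  · rw [dot_vec, h3, div_self (hc i).ne']
  · rw [dot_vec, h4, neg_div, div_self (hc j).ne']
  · rw [dot_vec, abs_div, abs_of_pos (hc k), div_le_one (hc k)]
    exact h5 k

/-- A label is `1` at a member if and only if its plane supports the member, which lies above it. -/
theorem above_iff {z u : EuclideanSpace ℝ (Fin m)} {t : ℝ} (hz : ∀ y ∈ K, z + z - y ∈ K)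
    (hu : ∀ y ∈ K, |inner ℝ u (y - z)| ≤ 1) (hp : ∃ p ∈ K, inner ℝ u (p - z) = 1) {n : ℕ} {c : Fin n → ℝ}
    {x : Fin n → EuclideanSpace ℝ (Fin m)} (k : Fin n) (hc : 0 < c k) :
    dot (Fin.snoc (fun a => u a) (-t) : Fin (m + 1) → ℝ) (vec c x z k) = 1 ↔ Above u t (hom K (c k) (x k)) := by
  rw [dot_vec, div_eq_one_iff_eq hc.ne']
  exact above_of hz hu hp hc

/-- A label is `-1` at a member if and only if its plane supports the member, which lies below it. -/
theorem below_iff {z u : EuclideanSpace ℝ (Fin m)} {t : ℝ}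
    (hu : ∀ y ∈ K, |inner ℝ u (y - z)| ≤ 1) (hp : ∃ p ∈ K, inner ℝ u (p - z) = 1) {n : ℕ} {c : Fin n → ℝ}
    {x : Fin n → EuclideanSpace ℝ (Fin m)} (k : Fin n) (hc : 0 < c k) :
    dot (Fin.snoc (fun a => u a) (-t) : Fin (m + 1) → ℝ) (vec c x z k) = -1 ↔ Below u t (hom K (c k) (x k)) := by
  rw [dot_vec, div_eq_iff hc.ne', neg_one_mul]
  exact below_of hu hp hc

theorem Above.neg {u : EuclideanSpace ℝ (Fin m)} {t : ℝ} {A : Set (EuclideanSpace ℝ (Fin m))} (h : Above u t A) :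
    Below (-u) (-t) A := by
  obtain ⟨h1, y, hy, h2⟩ := h
  refine ⟨fun y hy => ?_, y, hy, ?_⟩
  · rw [inner_neg_left]
    linarith [h1 y hy]
  · rw [inner_neg_left, h2]

theorem Below.neg {u : EuclideanSpace ℝ (Fin m)} {t : ℝ} {A : Set (EuclideanSpace ℝ (Fin m))} (h : Below u t A) :
    Above (-u) (-t) A := by
  obtain ⟨h1, y, hy, h2⟩ := h
  refine ⟨fun y hy => ?_, y, hy, ?_⟩
  · rw [inner_neg_left]
    linarith [h1 y hy]
  · rw [inner_neg_left, h2]

/-- The certificate: among the labels of eight members one is tight at four members with one sign and at three with the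
other sign. -/
def Cert : Prop :=
  ∀ W : Fin 8 → Fin 4 → ℝ, (∀ k, 0 < W k (Fin.last 3)) → ∀ f : Fin 8 → Fin 8 → Fin 4 → ℝ, Labels W f →
    ∃ i j, i ≠ j ∧ ∃ A B : Finset (Fin 8), A.card = 4 ∧ B.card = 3 ∧
      ((∀ k ∈ A, dot (f i j) (W k) = 1) ∧ (∀ k ∈ B, dot (f i j) (W k) = -1) ∨
        (∀ k ∈ A, dot (f i j) (W k) = -1) ∧ ∀ k ∈ B, dot (f i j) (W k) = 1)

/-- **Theorem E from the certificate.** -/
theorem plane_of_cert (hcert : Cert) {K : Set (EuclideanSpace ℝ (Fin 3))} (hK : Convex ℝ K) (hKc : IsCompact K)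
    (hKi : (interior K).Nonempty) {z : EuclideanSpace ℝ (Fin 3)} (hz : ∀ y ∈ K, z + z - y ∈ K) {c : Fin 8 → ℝ}
    {x : Fin 8 → EuclideanSpace ℝ (Fin 3)} (hc : ∀ i, 0 < c i)
    (ht : ∀ i j, i ≠ j → (hom K (c i) (x i) ∩ hom K (c j) (x j)).Nonempty ∧
      interior (hom K (c i) (x i)) ∩ interior (hom K (c j) (x j)) = ∅) :
    ∃ (u : EuclideanSpace ℝ (Fin 3)) (t : ℝ), u ≠ 0 ∧ ∃ A B : Finset (Fin 8), A.card = 4 ∧ B.card = 3 ∧ Disjoint A B ∧
      (∀ k ∈ A, Above u t (hom K (c k) (x k))) ∧ ∀ k ∈ B, Below u t (hom K (c k) (x k)) := by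
  obtain ⟨u, t, hu, hL⟩ := klabels hK hKc hKi hz hc ht
  have hlast : ∀ i, 0 < vec c x z i (Fin.last 3) := by
    intro i
    unfold vec
    rw [Fin.snoc_last]
    exact one_div_pos.2 (hc i)
  obtain ⟨i, j, hij, A, B, hA, hB, hAB⟩ := hcert _ hlast _ hL
  obtain ⟨h1, h2⟩ := hu i j hij
  have hu0 : u i j ≠ 0 := by
    obtain ⟨p, hp, hp1⟩ := h2
    intro h0
    rw [h0, inner_zero_left] at hp1
    norm_num at hp1
  have hdisj : ∀ {s : ℝ}, s ≠ 0 → (∀ k ∈ A, dot (Fin.snoc (fun a => u i j a) (-(t i j)) : Fin (3 + 1) → ℝ)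
      (vec c x z k) = s) → (∀ k ∈ B, dot (Fin.snoc (fun a => u i j a) (-(t i j)) : Fin (3 + 1) → ℝ)
      (vec c x z k) = -s) → Disjoint A B := by
    intro s hs h3 h4
    rw [Finset.disjoint_left]
    intro k hkA hkB
    have h5 := h3 k hkA
    rw [h4 k hkB] at h5
    apply hs
    linarith
  rcases hAB with ⟨h3, h4⟩ | ⟨h3, h4⟩
  · exact ⟨u i j, t i j, hu0, A, B, hA, hB, hdisj one_ne_zero h3 h4,
      fun k hk => (above_iff hz h1 h2 k (hc k)).1 (h3 k hk), fun k hk => (below_iff h1 h2 k (hc k)).1 (h4 k hk)⟩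
  · refine ⟨-(u i j), -(t i j), neg_ne_zero.2 hu0, A, B, hA, hB,
      hdisj (s := -1) (by norm_num) h3 (fun k hk => by rw [neg_neg]; exact h4 k hk), fun k hk => ?_, fun k hk => ?_⟩
    · exact ((below_iff h1 h2 k (hc k)).1 (h3 k hk)).neg
    · exact ((above_iff hz h1 h2 k (hc k)).1 (h4 k hk)).neg

end E8K
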