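import Pool.Agent.E8K.Lab
import Pool.Agent.C1S.Sep

/-!
# Every system of separating planes

Theorem E for an arbitrary choice of separating planes.
-/

set_option autoImplicit false

namespace E8K

open C1S

variable {m : ℕ} {K : Set (EuclideanSpace ℝ (Fin m))}

theorem half_width (hKc : IsCompact K) (hKi : (interior K).Nonempty)
    {z : EuclideanSpace ℝ (Fin m)} (hz : ∀ y ∈ K, z + z - y ∈ K) {u : EuclideanSpace ℝ (Fin m)} (hu0 : u ≠ 0) :
    ∃ h : ℝ, 0 < h ∧ (∀ y ∈ K, |inner ℝ u (y - z)| ≤ h) ∧ ∃ p ∈ K, inner ℝ u (p - z) = h := by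
  have hne : K.Nonempty := hKi.mono interior_subset
  obtain ⟨p, hp, hpmax⟩ := hKc.exists_isMaxOn hne (f := fun y => inner ℝ u y) (by fun_prop)
  have hmax : ∀ y ∈ K, inner ℝ u (y - z) ≤ inner ℝ u (p - z) := fun y hy => by
    have : inner ℝ u y ≤ inner ℝ u p := hpmax hy
    rw [inner_sub_right, inner_sub_right]
    linarith
  have hmin : ∀ y ∈ K, -inner ℝ u (p - z) ≤ inner ℝ u (y - z) := fun y hy => by
    have := hmax _ (hz y hy)
    rw [show z + z - y - z = -(y - z) by abel, inner_neg_right] at this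
    linarith
  refine ⟨inner ℝ u (p - z), ?_, fun y hy => abs_le.2 ⟨hmin y hy, hmax y hy⟩, p, hp, rfl⟩
  obtain ⟨y, hy⟩ := hKi
  obtain ⟨ε, hε, hball⟩ := Metric.isOpen_iff.1 isOpen_interior y hy
  have hun : 0 < ‖u‖ := norm_pos_iff.2 hu0
  have hmem : y + (ε / (2 * ‖u‖)) • u ∈ K := by
    apply interior_subset
    apply hball
    rw [Metric.mem_ball, dist_eq_norm, add_sub_cancel_left, norm_smul, Real.norm_eq_abs, abs_of_pos (by positivity)]
    have : ε / (2 * ‖u‖) * ‖u‖ = ε / 2 := by field_simp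
    rw [this]; linarith
  have h1 := hmax _ hmem
  have h2 := hmin y (interior_subset hy)
  rw [show y + (ε / (2 * ‖u‖)) • u - z = (y - z) + (ε / (2 * ‖u‖)) • u by abel, inner_add_right,
    real_inner_smul_right, real_inner_self_eq_norm_mul_norm] at h1
  have h3 : 0 < ε / (2 * ‖u‖) * (‖u‖ * ‖u‖) := by positivity
  linarith

theorem above_smul {u : EuclideanSpace ℝ (Fin m)} {t h : ℝ} (hh : 0 < h) {A : Set (EuclideanSpace ℝ (Fin m))} :
    Above ((1 / h) • u) (t / h) A ↔ Above u t A := by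
  have e : ∀ y, inner ℝ ((1 / h) • u) y = inner ℝ u y / h := fun y => by
    rw [real_inner_smul_left]
    ring
  unfold Above
  simp only [e, div_le_div_iff_of_pos_right hh, div_left_inj' hh.ne']

theorem below_smul {u : EuclideanSpace ℝ (Fin m)} {t h : ℝ} (hh : 0 < h) {A : Set (EuclideanSpace ℝ (Fin m))} :
    Below ((1 / h) • u) (t / h) A ↔ Below u t A := by
  have e : ∀ y, inner ℝ ((1 / h) • u) y = inner ℝ u y / h := fun y => by
    rw [real_inner_smul_left]
    ring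
  unfold Below
  simp only [e, div_le_div_iff_of_pos_right hh, div_left_inj' hh.ne']

/-- Planes which separate the members give labels. -/
theorem labels_of_sep {z : EuclideanSpace ℝ (Fin m)} (hz : ∀ y ∈ K, z + z - y ∈ K) {n : ℕ} {c : Fin n → ℝ}
    {x : Fin n → EuclideanSpace ℝ (Fin m)} (hc : ∀ i, 0 < c i)
    (hm : ∀ i j, i ≠ j → (hom K (c i) (x i) ∩ hom K (c j) (x j)).Nonempty)
    {u : Fin n → Fin n → EuclideanSpace ℝ (Fin m)} {t : Fin n → Fin n → ℝ}
    (hu : ∀ i j, i ≠ j → (∀ y ∈ K, |inner ℝ (u i j) (y - z)| ≤ 1) ∧ ∃ p ∈ K, inner ℝ (u i j) (p - z) = 1)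
    (h1 : ∀ i j, i ≠ j → ∀ y ∈ hom K (c i) (x i), t i j ≤ inner ℝ (u i j) y)
    (h2 : ∀ i j, i ≠ j → ∀ y ∈ hom K (c j) (x j), inner ℝ (u i j) y ≤ t i j) :
    Labels (vec c x z) fun i j => (Fin.snoc (fun a => u i j a) (-(t i j)) : Fin (m + 1) → ℝ) := by
  intro i j hij
  obtain ⟨hab, p, hp, hp1⟩ := hu i j hij
  have e : ∀ k y, inner ℝ (u i j) (x k + c k • y) =
      inner ℝ (u i j) (x k + c k • z) + c k * inner ℝ (u i j) (y - z) := by
    intro k y
    rw [inner_add_right, inner_add_right, inner_sub_right, real_inner_smul_right, real_inner_smul_right]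
    ring
  obtain ⟨q, hq1, hq2⟩ := hm i j hij
  have hci := hc i
  have hcj := hc j
  have hi : inner ℝ (u i j) (x i + c i • z) - t i j = c i := by
    have h3 := h1 i j hij _ ⟨_, hz p hp, rfl⟩
    simp only at h3
    rw [e, show z + z - p - z = -(p - z) by abel, inner_neg_right, hp1] at h3
    have h4 := h2 i j hij q hq2
    obtain ⟨y, hy, rfl⟩ := hq1
    simp only at h4
    rw [e] at h4
    have h5 := mul_le_mul_of_nonneg_left (abs_le.1 (hab y hy)).1 hci.le
    linarith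
  have hj : inner ℝ (u i j) (x j + c j • z) - t i j = -c j := by
    have h3 := h2 i j hij _ ⟨_, hp, rfl⟩
    simp only at h3
    rw [e, hp1] at h3
    have h4 := h1 i j hij q hq1
    obtain ⟨y, hy, rfl⟩ := hq2
    simp only at h4
    rw [e] at h4
    have h5 := mul_le_mul_of_nonneg_left (abs_le.1 (hab y hy)).2 hcj.le
    linarith
  refine ⟨?_, ?_, fun k => ?_⟩
  · rw [dot_vec, hi, div_self hci.ne']
  · rw [dot_vec, hj, neg_div, div_self hcj.ne']
  · rw [dot_vec, abs_div, abs_of_pos (hc k), div_le_one (hc k), abs_le]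
    constructor
    · by_cases hki : k = i
      · subst hki
        rw [hi]; linarith
      · exact sep_other hab (hc i) (hc k) (hm i k (Ne.symm hki)) hi
    · by_cases hkj : k = j
      · subst hkj
        rw [hj]; linarith
      · exact sep_other' hab (hc j) (hc k) (hm j k (Ne.symm hkj)) hj

/-- **Theorem E for every choice of separating planes.** -/
theorem planes_of_cert (hcert : Cert) {K : Set (EuclideanSpace ℝ (Fin 3))} (hKc : IsCompact K)
    (hKi : (interior K).Nonempty) {z : EuclideanSpace ℝ (Fin 3)} (hz : ∀ y ∈ K, z + z - y ∈ K) {c : Fin 8 → ℝ}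
    {x : Fin 8 → EuclideanSpace ℝ (Fin 3)} (hc : ∀ i, 0 < c i)
    (hm : ∀ i j, i ≠ j → (hom K (c i) (x i) ∩ hom K (c j) (x j)).Nonempty)
    {u : Fin 8 → Fin 8 → EuclideanSpace ℝ (Fin 3)} {t : Fin 8 → Fin 8 → ℝ}
    (hsep : ∀ i j, i ≠ j → u i j ≠ 0 ∧ (∀ y ∈ hom K (c i) (x i), t i j ≤ inner ℝ (u i j) y) ∧
      ∀ y ∈ hom K (c j) (x j), inner ℝ (u i j) y ≤ t i j) :
    ∃ i j, i ≠ j ∧ ∃ A B : Finset (Fin 8), A.card = 4 ∧ B.card = 3 ∧ Disjoint A B ∧
      ((∀ k ∈ A, Above (u i j) (t i j) (hom K (c k) (x k))) ∧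
        (∀ k ∈ B, Below (u i j) (t i j) (hom K (c k) (x k))) ∨
      (∀ k ∈ A, Below (u i j) (t i j) (hom K (c k) (x k))) ∧
        ∀ k ∈ B, Above (u i j) (t i j) (hom K (c k) (x k))) := by
  have hw : ∀ i j, ∃ h : ℝ, i ≠ j → 0 < h ∧ (∀ y ∈ K, |inner ℝ (u i j) (y - z)| ≤ h) ∧
      ∃ p ∈ K, inner ℝ (u i j) (p - z) = h := by
    intro i j
    by_cases hij : i = j
    · exact ⟨0, fun h => absurd hij h⟩
    obtain ⟨h, h1, h2, h3⟩ := half_width hKc hKi hz (hsep i j hij).1
    exact ⟨h, fun _ => ⟨h1, h2, h3⟩⟩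
  choose h hh using hw
  have e : ∀ i j y, inner ℝ ((1 / h i j) • u i j) y = inner ℝ (u i j) y / h i j := fun i j y => by
    rw [real_inner_smul_left]
    ring
  have hu' : ∀ i j, i ≠ j → (∀ y ∈ K, |inner ℝ ((1 / h i j) • u i j) (y - z)| ≤ 1) ∧
      ∃ p ∈ K, inner ℝ ((1 / h i j) • u i j) (p - z) = 1 := by
    intro i j hij
    obtain ⟨h1, h2, p, hp, h3⟩ := hh i j hij
    refine ⟨fun y hy => ?_, p, hp, ?_⟩
    · rw [e, abs_div, abs_of_pos h1, div_le_one h1]
      exact h2 y hy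
    · rw [e, h3, div_self h1.ne']
  have hL := labels_of_sep (u := fun i j => (1 / h i j) • u i j) (t := fun i j => t i j / h i j) hz hc hm hu'
    (fun i j hij y hy => by
      simp only [e]
      exact (div_le_div_iff_of_pos_right (hh i j hij).1).2 ((hsep i j hij).2.1 y hy))
    (fun i j hij y hy => by
      simp only [e]
      exact (div_le_div_iff_of_pos_right (hh i j hij).1).2 ((hsep i j hij).2.2 y hy))
  have hlast : ∀ i, 0 < vec c x z i (Fin.last 3) := by
    intro i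
    unfold vec
    rw [Fin.snoc_last]
    exact one_div_pos.2 (hc i)
  obtain ⟨i, j, hij, A, B, hA, hB, hAB⟩ := hcert _ hlast _ hL
  obtain ⟨h1, h2⟩ := hu' i j hij
  have hpos := (hh i j hij).1
  refine ⟨i, j, hij, A, B, hA, hB, ?_, ?_⟩
  · rw [Finset.disjoint_left]
    intro k hkA hkB
    rcases hAB with ⟨h3, h4⟩ | ⟨h3, h4⟩
    · have h5 := h3 k hkA
      rw [h4 k hkB] at h5
      norm_num at h5
    · have h5 := h3 k hkA
      rw [h4 k hkB] at h5
      norm_num at h5
  · rcases hAB with ⟨h3, h4⟩ | ⟨h3, h4⟩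
    · exact Or.inl ⟨fun k hk => (above_smul hpos).1 ((above_iff hz h1 h2 k (hc k)).1 (h3 k hk)),
        fun k hk => (below_smul hpos).1 ((below_iff h1 h2 k (hc k)).1 (h4 k hk))⟩
    · exact Or.inr ⟨fun k hk => (below_smul hpos).1 ((below_iff h1 h2 k (hc k)).1 (h3 k hk)),
        fun k hk => (above_smul hpos).1 ((above_iff hz h1 h2 k (hc k)).1 (h4 k hk))⟩

end E8K
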