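import Pool.Agent.E8K.SmoothBody
import Pool.Agent.E8K.Sep

/-!
# Eight members which no plane supports together

`K` is cut out of the cube `[-1, 1]^3` by four slabs.  Each of the three coordinate planes supports seven of the eight
members, four of them from one side, but no plane supports all eight members.
-/

set_option autoImplicit false

namespace E8K

open C1S

/-- the ratios -/
def cS : Fin 8 → ℤ := ![2, 3, 90, 60, 3, 120, 30, 50]

/-- the centres -/
def xS : Fin 8 → Fin 3 → ℤ :=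
  ![![2, 2, 2], ![-3, 3, 3], ![-90, -90, 90], ![60, -60, 60], ![3, 3, -3], ![120, -120, -120],
    ![-30, 15, -30], ![3, 50, 37]]

/-- the numerators of the normals -/
def pS : Fin 7 → Fin 3 → ℤ :=
  ![![1, 0, 0], ![0, 1, 0], ![0, 0, 1], ![1, 2, 1], ![3, 3, 2], ![1, 2, 2], ![1, 1, 1]]

/-- the value of the numerator of a normal on a difference of centres -/
def tS (q : Fin 7) (k l : Fin 8) : ℤ :=
  pS q 0 * (xS k 0 - xS l 0) + pS q 1 * (xS k 1 - xS l 1) + pS q 2 * (xS k 2 - xS l 2)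

/-- the numerators of the half widths -/
def aS : Fin 7 → ℤ := ![1, 1, 1, 132, 227, 174, 135]

/-- the denominators of the half widths -/
def bS : Fin 7 → ℤ := ![1, 1, 1, 52, 53, 53, 80]

/-- four affine dependencies of the centres -/
def lS : Fin 4 → Fin 8 → ℤ :=
  ![![-930, 620, -11, 31, 290, 0, 0, 0], ![-3690, 3620, -82, 123, 0, 29, 0, 0],
    ![-1410, 1230, -41, 105, 0, 0, 116, 0], ![73110, -73970, 2137, -3017, 0, 0, 0, 1740]]

theorem cS_pos : ∀ i, 0 < cS i := by decide +kernel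

theorem aS_pos : ∀ q, 0 < aS q := by decide +kernel

theorem bS_pos : ∀ q, 0 < bS q := by decide +kernel

theorem tS_le : ∀ q k l, k ≠ l → tS q k l * bS q ≤ aS q * (cS k + cS l) ∧
    -(aS q * (cS k + cS l)) ≤ tS q k l * bS q := by decide +kernel

theorem tS_eq : ∀ k l, k < l → ∃ q, tS q k l * bS q = aS q * (cS k + cS l) ∨
    tS q k l * bS q = -(aS q * (cS k + cS l)) := by decide +kernel

theorem lS_sum : ∀ b, ∑ k, lS b k = 0 := by decide +kernel

theorem lS_x : ∀ b a, ∑ k, lS b k * xS k a = 0 := by decide +kernel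

theorem lS_sgn : ∀ s : Fin 8 → Bool, ∃ b, ∑ k, lS b k * (cS k * (if s k then 1 else -1)) ≠ 0 := by
  decide +kernel

/-- the centres in `ℝ³` -/
noncomputable def xRS (i : Fin 8) : EuclideanSpace ℝ (Fin 3) := WithLp.toLp 2 fun a => (xS i a : ℝ)

/-- the normals in `ℝ³` -/
noncomputable def uRS (q : Fin 7) : EuclideanSpace ℝ (Fin 3) :=
  WithLp.toLp 2 fun a => (pS q a : ℝ) * (bS q : ℝ) / (aS q : ℝ)

/-- the body -/
def KS : Set (EuclideanSpace ℝ (Fin 3)) := {y | ∀ q, |inner ℝ (uRS q) y| ≤ 1}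

theorem inner_uRS (q : Fin 7) (k l : Fin 8) :
    inner ℝ (uRS q) (xRS k - xRS l) = (tS q k l : ℝ) * (bS q : ℝ) / (aS q : ℝ) := by
  rw [PiLp.inner_apply]
  simp only [RCLike.inner_apply, conj_trivial, uRS, xRS, PiLp.sub_apply, Fin.sum_univ_three]
  unfold tS
  push_cast
  ring

theorem coord_KS {y : EuclideanSpace ℝ (Fin 3)} (hy : y ∈ KS) (a : Fin 3) : |y a| ≤ 1 := by
  have key : ∀ q : Fin 7, inner ℝ (uRS q) y =
      ((pS q 0 : ℝ) * y 0 + (pS q 1 : ℝ) * y 1 + (pS q 2 : ℝ) * y 2) * (bS q : ℝ) / (aS q : ℝ) := by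
    intro q
    rw [PiLp.inner_apply]
    simp only [RCLike.inner_apply, conj_trivial, uRS, Fin.sum_univ_three]
    ring
  have h0 := hy 0
  have h1 := hy 1
  have h2 := hy 2
  rw [key] at h0 h1 h2
  fin_cases a
  · simpa [pS, aS, bS] using h0
  · simpa [pS, aS, bS] using h1
  · simpa [pS, aS, bS] using h2

theorem convex_KS : Convex ℝ KS := by
  intro x hx y hy a b ha hb hab q
  rw [inner_add_right, real_inner_smul_right, real_inner_smul_right]
  have h1 := abs_le.1 (hx q)
  have h2 := abs_le.1 (hy q)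
  rw [abs_le]
  constructor <;> nlinarith [h1.1, h1.2, h2.1, h2.2]

theorem compact_KS : IsCompact KS := by
  apply Metric.isCompact_of_isClosed_isBounded
  · have e : KS = ⋂ q, {y | |inner ℝ (uRS q) y| ≤ 1} := by
      ext y
      simp [KS]
    rw [e]
    exact isClosed_iInter fun q => isClosed_le (by fun_prop) continuous_const
  · refine (Metric.isBounded_iff_subset_closedBall 0).2 ⟨2, fun y hy => ?_⟩
    rw [mem_closedBall_zero_iff]
    have e : ‖y‖ ^ 2 = y 0 ^ 2 + y 1 ^ 2 + y 2 ^ 2 := by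
      rw [EuclideanSpace.norm_sq_eq, Fin.sum_univ_three]
      simp [sq_abs]
    have h0 := sq_le_one_iff_abs_le_one (y 0) |>.2 (coord_KS hy 0)
    have h1 := sq_le_one_iff_abs_le_one (y 1) |>.2 (coord_KS hy 1)
    have h2 := sq_le_one_iff_abs_le_one (y 2) |>.2 (coord_KS hy 2)
    nlinarith [norm_nonneg y]

theorem interior_KS : (interior KS).Nonempty := by
  refine ⟨0, mem_interior.2 ⟨⋂ q, {y | |inner ℝ (uRS q) y| < 1}, ?_, ?_, ?_⟩⟩
  · intro y hy q
    exact (Set.mem_iInter.1 hy q).le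
  · exact isOpen_iInter_of_finite fun q => isOpen_lt (by fun_prop) continuous_const
  · rw [Set.mem_iInter]
    intro q
    show |inner ℝ (uRS q) (0 : EuclideanSpace ℝ (Fin 3))| < 1
    rw [inner_zero_right, abs_zero]
    exact one_pos

theorem neg_KS : ∀ y ∈ KS, -y ∈ KS := by
  intro y hy q
  rw [inner_neg_right, abs_neg]
  exact hy q

theorem tangent_KS {k l : Fin 8} (hkl : k < l) :
    (hom KS (cS k : ℝ) (xRS k) ∩ hom KS (cS l : ℝ) (xRS l)).Nonempty ∧
      interior (hom KS (cS k : ℝ) (xRS k)) ∩ interior (hom KS (cS l : ℝ) (xRS l)) = ∅ := by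
  have hk : (0 : ℝ) < cS k := by exact_mod_cast cS_pos k
  have hl : (0 : ℝ) < cS l := by exact_mod_cast cS_pos l
  have hs : (0 : ℝ) < (cS k : ℝ) + cS l := add_pos hk hl
  set w : EuclideanSpace ℝ (Fin 3) := ((cS k : ℝ) + cS l)⁻¹ • (xRS k - xRS l) with hw
  have hwx : xRS k - xRS l = ((cS k : ℝ) + cS l) • w := by
    rw [hw, smul_smul, mul_inv_cancel₀ hs.ne', one_smul]
  have hv : ∀ q, inner ℝ (uRS q) w = ((tS q k l : ℝ) * (bS q : ℝ)) / ((aS q : ℝ) * ((cS k : ℝ) + cS l)) := by
    intro q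
    have ha : (0 : ℝ) < aS q := by exact_mod_cast aS_pos q
    rw [hw, real_inner_smul_right, inner_uRS]
    field_simp
  have hwK : w ∈ KS := by
    intro q
    have ha : (0 : ℝ) < aS q := by exact_mod_cast aS_pos q
    obtain ⟨h1, h2⟩ := tS_le q k l hkl.ne
    have h1' : (tS q k l : ℝ) * (bS q : ℝ) ≤ (aS q : ℝ) * ((cS k : ℝ) + cS l) := by exact_mod_cast h1
    have h2' : -((aS q : ℝ) * ((cS k : ℝ) + cS l)) ≤ (tS q k l : ℝ) * (bS q : ℝ) := by exact_mod_cast h2
    rw [hv, abs_div, abs_of_pos (mul_pos ha hs), div_le_one (mul_pos ha hs), abs_le]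
    exact ⟨h2', h1'⟩
  obtain ⟨q, h | h⟩ := tS_eq k l hkl
  · have ha : (0 : ℝ) < aS q := by exact_mod_cast aS_pos q
    have h' : (tS q k l : ℝ) * (bS q : ℝ) = (aS q : ℝ) * ((cS k : ℝ) + cS l) := by exact_mod_cast h
    refine touch_of_slab hk hl hwx hwK (neg_KS w hwK) (u := uRS q) ?_ fun z hz => hz q
    rw [hv, h', div_self (mul_pos ha hs).ne']
  · have ha : (0 : ℝ) < aS q := by exact_mod_cast aS_pos q
    have h' : (tS q k l : ℝ) * (bS q : ℝ) = -((aS q : ℝ) * ((cS k : ℝ) + cS l)) := by exact_mod_cast h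
    refine touch_of_slab hk hl hwx hwK (neg_KS w hwK) (u := -uRS q) ?_ fun z hz => ?_
    · rw [inner_neg_left, hv, h', neg_div, neg_neg, div_self (mul_pos ha hs).ne']
    · rw [inner_neg_left, abs_neg]
      exact hz q

/-- **Eight members which no plane supports together.** -/
theorem no_common_plane : ∃ (K : Set (EuclideanSpace ℝ (Fin 3))) (c : Fin 8 → ℝ)
    (x : Fin 8 → EuclideanSpace ℝ (Fin 3)), Convex ℝ K ∧ IsCompact K ∧
      (interior K).Nonempty ∧ (∀ y ∈ K, -y ∈ K) ∧ (∀ i, 0 < c i) ∧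
      (∀ i j, i ≠ j → (hom K (c i) (x i) ∩ hom K (c j) (x j)).Nonempty ∧
        interior (hom K (c i) (x i)) ∩ interior (hom K (c j) (x j)) = ∅) ∧
      ∀ (u : EuclideanSpace ℝ (Fin 3)) (t : ℝ), u ≠ 0 →
        ∃ k, ¬ Above u t (hom K (c k) (x k)) ∧ ¬ Below u t (hom K (c k) (x k)) := by
  refine ⟨KS, fun i => (cS i : ℝ), xRS, convex_KS, compact_KS, interior_KS, neg_KS,
    fun i => by
      show (0 : ℝ) < (cS i : ℝ)
      exact_mod_cast cS_pos i, fun i j hij => ?_, fun u t hu => ?_⟩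
  · rcases lt_or_gt_of_ne hij with h | h
    · exact tangent_KS h
    · have := tangent_KS h
      rwa [Set.inter_comm, Set.inter_comm (interior (hom KS (cS j : ℝ) (xRS j)))] at this
  · by_contra hcon
    push Not at hcon
    obtain ⟨h, hh, hab, p, hp, hph⟩ := half_width compact_KS interior_KS (z := 0)
      (fun y hy => by simpa using neg_KS y hy) hu
    simp only [sub_zero] at hab hph
    have hval : ∀ k, ∃ b : Bool, inner ℝ u (xRS k) - t = h * ((cS k : ℝ) * (if b then 1 else -1)) := by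
      intro k
      have hk : (0 : ℝ) < cS k := by exact_mod_cast cS_pos k
      have e : ∀ y, inner ℝ u (xRS k + (cS k : ℝ) • y) = inner ℝ u (xRS k) + (cS k : ℝ) * inner ℝ u y := by
        intro y
        rw [inner_add_right, real_inner_smul_right]
      by_cases hA : Above u t (hom KS (cS k : ℝ) (xRS k))
      · refine ⟨true, ?_⟩
        obtain ⟨h1, _, ⟨y, hy, rfl⟩, h2⟩ := hA
        have h3 := h1 _ ⟨-p, neg_KS p hp, rfl⟩
        simp only at h2 h3
        rw [e] at h2 h3
        rw [inner_neg_right, hph] at h3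
        have h4 := mul_le_mul_of_nonneg_left (abs_le.1 (hab y hy)).1 hk.le
        simp only [if_true]
        linarith
      · refine ⟨false, ?_⟩
        obtain ⟨h1, _, ⟨y, hy, rfl⟩, h2⟩ := hcon k hA
        have h3 := h1 _ ⟨p, hp, rfl⟩
        simp only at h2 h3
        rw [e] at h2 h3
        rw [hph] at h3
        have h4 := mul_le_mul_of_nonneg_left (abs_le.1 (hab y hy)).2 hk.le
        simp only [Bool.false_eq_true, if_false]
        linarith
    choose s hs using hval
    obtain ⟨b, hb⟩ := lS_sgn s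
    apply hb
    have e1 : ∑ k, (lS b k : ℝ) * inner ℝ u (xRS k) = 0 := by
      have e2 : ∑ k, (lS b k : ℝ) * inner ℝ u (xRS k) = inner ℝ u (∑ k, (lS b k : ℝ) • xRS k) := by
        rw [inner_sum]
        exact Finset.sum_congr rfl fun k _ => (real_inner_smul_right _ _ _).symm
      have e3 : ∑ k, (lS b k : ℝ) • xRS k = 0 := by
        ext a
        have h5 := lS_x b a
        have h6 : (∑ k, (lS b k : ℝ) * (xS k a : ℝ)) = 0 := by exact_mod_cast h5
        simpa [xRS] using h6
      rw [e2, e3, inner_zero_right]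
    have e4 : ∑ k, (lS b k : ℝ) * t = 0 := by
      rw [← Finset.sum_mul]
      have h6 : (∑ k, (lS b k : ℝ)) = 0 := by exact_mod_cast lS_sum b
      rw [h6, zero_mul]
    have e5 : ∑ k, (lS b k : ℝ) * (h * ((cS k : ℝ) * (if s k then 1 else -1))) = 0 := by
      rw [← sub_zero (0 : ℝ)]
      nth_rewrite 1 [← e1]
      rw [← e4, ← Finset.sum_sub_distrib]
      refine Finset.sum_congr rfl fun k _ => ?_
      rw [← hs k]
      ring
    have e6 : h * ∑ k, (lS b k : ℝ) * ((cS k : ℝ) * (if s k then 1 else -1)) = 0 := by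
      rw [Finset.mul_sum, ← e5]
      exact Finset.sum_congr rfl fun k _ => by ring
    have e7 := (mul_eq_zero.1 e6).resolve_left hh.ne'
    have e8 : ((∑ k, lS b k * (cS k * (if s k then 1 else -1)) : ℤ) : ℝ) = 0 := by
      rw [← e7]
      push_cast
      rfl
    exact_mod_cast e8

end E8K
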