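import Pool.Agent.E8K.Lab

/-!
# Planes which support many members on both sides, and faces which are simplices

Let the exposed face of `K` in the direction `u` be a simplex. Then a hyperplane `{y : ⟨u, y⟩ = t}` cannot support `m + 1`
members from above and two others from below.
-/

set_option autoImplicit false

namespace E8K

open C1S Finset

variable {m : ℕ} {K : Set (EuclideanSpace ℝ (Fin m))}

/-- The exposed face of `K` in the direction `u` is a simplex (the convex hull of affinely independent points). -/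
def SimplexFace (K : Set (EuclideanSpace ℝ (Fin m))) (u : EuclideanSpace ℝ (Fin m)) : Prop :=
  ∃ (r : ℕ) (b : Fin r → EuclideanSpace ℝ (Fin m)), AffineIndependent ℝ b ∧
    {y | y ∈ K ∧ ∀ y' ∈ K, inner ℝ u y' ≤ inner ℝ u y} = convexHull ℝ (Set.range b)

theorem hull_fin {ι : Type} [Fintype ι] (b : ι → EuclideanSpace ℝ (Fin m)) {y : EuclideanSpace ℝ (Fin m)}
    (hy : y ∈ convexHull ℝ (Set.range b)) :
    ∃ w : ι → ℝ, (∀ i, 0 ≤ w i) ∧ ∑ i, w i = 1 ∧ ∑ i, w i • b i = y := by
  classical
  rw [convexHull_range_eq_exists_affineCombination] at hy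
  obtain ⟨s, w, hw0, hw1, rfl⟩ := hy
  refine ⟨fun i => if i ∈ s then w i else 0, fun i => ?_, ?_, ?_⟩
  · by_cases hi : i ∈ s
    · simp only [hi, if_true]
      exact hw0 i hi
    · simp [hi]
  · rw [← hw1]
    simp [Finset.sum_ite_mem]
  · rw [s.affineCombination_eq_linear_combination b w hw1]
    simp [Finset.sum_ite_mem, ite_smul]

/-- points of `K` close to the centre -/
theorem near (hK : Convex ℝ K) {z : EuclideanSpace ℝ (Fin m)} (hzi : z ∈ interior K) {r : ℕ}
    {b : Fin r → EuclideanSpace ℝ (Fin m)} (hb : ∀ s, b s ∈ K) {a : Fin r → ℝ} (ha : ∀ s, 0 ≤ a s)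
    (ha1 : ∑ s, a s < 1) : z + ∑ s, a s • (b s - z) ∈ interior K := by
  have h0 : 0 ≤ ∑ s, a s := Finset.sum_nonneg fun s _ => ha s
  rcases h0.eq_or_lt with h | h
  · have h1 : ∀ s, a s = 0 := fun s => (Finset.sum_eq_zero_iff_of_nonneg (fun s _ => ha s)).1 h.symm s (mem_univ s)
    simpa [h1] using hzi
  · set σ := ∑ s, a s with hσ
    have hp : ∑ s, (a s / σ) • b s ∈ K := by
      refine hK.sum_mem (fun s _ => div_nonneg (ha s) h.le) ?_ fun s _ => hb s
      rw [← Finset.sum_div, ← hσ, div_self h.ne']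
    have h2 := hK.combo_interior_self_mem_interior hzi hp (sub_pos.2 ha1) h.le (by ring)
    have e : z + ∑ s, a s • (b s - z) = (1 - σ) • z + σ • ∑ s, (a s / σ) • b s := by
      rw [Finset.smul_sum]
      simp only [smul_sub, Finset.sum_sub_distrib, smul_smul, mul_div_cancel₀ _ h.ne']
      rw [← Finset.sum_smul, ← hσ, sub_smul, one_smul]
      abel
    rw [e]
    exact h2

theorem center_interior (hK : Convex ℝ K) (hKi : (interior K).Nonempty) {z : EuclideanSpace ℝ (Fin m)}
    (hz : ∀ y ∈ K, z + z - y ∈ K) : z ∈ interior K := by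
  obtain ⟨y, hy⟩ := hKi
  have h1 := hK.combo_interior_self_mem_interior hy (hz y (interior_subset hy)) (a := 1 / 2) (b := 1 / 2)
    (by norm_num) (by norm_num) (by norm_num)
  have e : (1 / 2 : ℝ) • y + (1 / 2 : ℝ) • (z + z - y) = z := by
    module
  rwa [e] at h1

/-- **No plane with `m + 1` members above and two below.** -/
theorem no_plane (hK : Convex ℝ K) (hKc : IsCompact K) (hKi : (interior K).Nonempty)
    {z : EuclideanSpace ℝ (Fin m)} (hz : ∀ y ∈ K, z + z - y ∈ K) {n : ℕ} {c : Fin n → ℝ}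
    {x : Fin n → EuclideanSpace ℝ (Fin m)} (hc : ∀ i, 0 < c i)
    (ht : ∀ i j, i ≠ j → (hom K (c i) (x i) ∩ hom K (c j) (x j)).Nonempty ∧
      interior (hom K (c i) (x i)) ∩ interior (hom K (c j) (x j)) = ∅)
    {u : EuclideanSpace ℝ (Fin m)} {t : ℝ} (hu : u ≠ 0) (hF : SimplexFace K u) {A B : Finset (Fin n)}
    (hA : m + 1 ≤ A.card) (hB : 2 ≤ B.card) (hAB : Disjoint A B)
    (hAt : ∀ k ∈ A, Above u t (hom K (c k) (x k))) (hBt : ∀ k ∈ B, Below u t (hom K (c k) (x k))) : False := by
  classical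
  obtain ⟨r, b, hbi, hbF⟩ := hF
  have hzi := center_interior hK hKi hz
  have hne : K.Nonempty := hKi.mono interior_subset
  obtain ⟨p, hp, hpmax⟩ := hKc.exists_isMaxOn hne (f := fun y => inner ℝ u y) (by fun_prop)
  have hpmax' : ∀ y ∈ K, inner ℝ u y ≤ inner ℝ u p := fun y hy => hpmax hy
  -- the half width
  set w := inner ℝ u p - inner ℝ u z with hw
  have hw0 : 0 < w := by
    obtain ⟨ε, hε, hball⟩ := Metric.isOpen_iff.1 isOpen_interior z hzi
    have hun : 0 < ‖u‖ := norm_pos_iff.2 hu
    have hmem : z + (ε / (2 * ‖u‖)) • u ∈ K := by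
      apply interior_subset
      apply hball
      rw [Metric.mem_ball, dist_eq_norm, add_sub_cancel_left, norm_smul, Real.norm_eq_abs, abs_of_pos (by positivity)]
      have : ε / (2 * ‖u‖) * ‖u‖ = ε / 2 := by field_simp
      rw [this]; linarith
    have h1 := hpmax' _ hmem
    rw [inner_add_right, real_inner_smul_right, real_inner_self_eq_norm_mul_norm] at h1
    have : 0 < ε / (2 * ‖u‖) * (‖u‖ * ‖u‖) := by positivity
    linarith
  have hmem : ∀ y, y ∈ convexHull ℝ (Set.range b) ↔ y ∈ K ∧ ∀ y' ∈ K, inner ℝ u y' ≤ inner ℝ u y := by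
    intro y
    rw [← hbF]
    rfl
  have hbK : ∀ s, b s ∈ K := fun s => ((hmem _).1 (subset_convexHull ℝ _ ⟨s, rfl⟩)).1
  have hbu : ∀ s, inner ℝ u (b s - z) = w := by
    intro s
    obtain ⟨h1, h2⟩ := (hmem _).1 (subset_convexHull ℝ _ ⟨s, rfl⟩ : b s ∈ convexHull ℝ (Set.range b))
    rw [inner_sub_right, hw, le_antisymm (hpmax' _ h1) (h2 p hp)]
  -- linear independence and the dual forms
  have hli : LinearIndependent ℝ fun s => b s - z := by
    rw [Fintype.linearIndependent_iff]
    intro g hg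
    have h1 : ∑ s, g s = 0 := by
      have h2 : inner ℝ u (∑ s, g s • (b s - z)) = 0 := by rw [hg, inner_zero_right]
      rw [inner_sum] at h2
      simp only [real_inner_smul_right, hbu] at h2
      rw [← Finset.sum_mul] at h2
      rcases mul_eq_zero.1 h2 with h | h
      · exact h
      · exact absurd h hw0.ne'
    have h2 : ∑ s, g s • b s = 0 := by
      have h3 : ∑ s, g s • (b s - z) = ∑ s, g s • b s - (∑ s, g s) • z := by
        rw [Finset.sum_smul, ← Finset.sum_sub_distrib]
        exact Finset.sum_congr rfl fun s _ => smul_sub _ _ _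
      rw [h3, h1, zero_smul, sub_zero] at hg
      exact hg
    intro s
    exact affineIndependent_iff.1 hbi univ g h1 h2 s (mem_univ s)
  have hr : r ≤ m := by
    have := hli.fintype_card_le_finrank
    simpa using this
  have hdual : ∀ s : Fin r, ∃ l : EuclideanSpace ℝ (Fin m) →ₗ[ℝ] ℝ, ∀ s', l (b s' - z) = if s = s' then 1 else 0 := by
    intro s
    obtain ⟨g, hg⟩ := LinearMap.exists_extend ((Module.Basis.span hli).coord s)
    refine ⟨g, fun s' => ?_⟩
    have h1 : (⟨b s' - z, Submodule.subset_span ⟨s', rfl⟩⟩ : Submodule.span ℝ (Set.range fun s => b s - z)) =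
        Module.Basis.span hli s' := by
      apply Subtype.ext
      rw [Module.Basis.span_apply]
    have h2 : g (b s' - z) = (Module.Basis.span hli).coord s (Module.Basis.span hli s') := by
      rw [← h1, ← hg]
      rfl
    rw [h2, Module.Basis.coord_apply, Module.Basis.repr_self, Finsupp.single_apply]
    simp only [eq_comm]
  choose l hl using hdual
  -- expansions
  have hexp : ∀ a : Fin r → ℝ, ∀ s, l s (∑ s', a s' • (b s' - z)) = a s := by
    intro a s
    rw [map_sum]
    simp only [map_smul, hl, smul_eq_mul, mul_ite, mul_one, mul_zero, Finset.sum_ite_eq, mem_univ, if_true]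
  set P : Fin n → EuclideanSpace ℝ (Fin m) := fun i => x i + c i • z with hP
  -- the difference of a member above and a member below
  have hdiff : ∀ i ∈ A, ∀ j ∈ B, ∃ a : Fin r → ℝ, (∀ s, 0 ≤ a s) ∧ ∑ s, a s = c i + c j ∧
      P i - P j = ∑ s, a s • (b s - z) := by
    intro i hi j hj
    have hij : i ≠ j := fun h => (Finset.disjoint_left.1 hAB hi) (h ▸ hj)
    obtain ⟨q, hqi, hqj⟩ := (ht i j hij).1
    have h1 := (hAt i hi).1 q hqi
    have h2 := (hBt j hj).1 q hqj
    have hqt : inner ℝ u q = t := le_antisymm h2 h1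
    obtain ⟨y, hy, hyq⟩ := hqi
    obtain ⟨y', hy', hyq'⟩ := hqj
    simp only at hyq hyq'
    have hci := hc i
    have hcj := hc j
    -- `z + z - y` and `y'` are in the face
    have hf : z + z - y ∈ convexHull ℝ (Set.range b) := by
      rw [hmem]
      refine ⟨hz y hy, fun v hv => ?_⟩
      have h3 := (hAt i hi).1 _ ⟨_, hz v hv, rfl⟩
      simp only at h3
      rw [← hqt, ← hyq, inner_add_right, inner_add_right, real_inner_smul_right, real_inner_smul_right] at h3
      have h4 : inner ℝ u y ≤ inner ℝ u (z + z - v) := by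
        have h5 : c i * inner ℝ u y ≤ c i * inner ℝ u (z + z - v) := by linarith
        exact le_of_mul_le_mul_left h5 hci
      rw [inner_sub_right] at h4 ⊢
      linarith
    have hg : y' ∈ convexHull ℝ (Set.range b) := by
      rw [hmem]
      refine ⟨hy', fun v hv => ?_⟩
      have h3 := (hBt j hj).1 _ ⟨_, hv, rfl⟩
      simp only at h3
      rw [← hqt, ← hyq', inner_add_right, inner_add_right, real_inner_smul_right, real_inner_smul_right] at h3
      have h5 : c j * inner ℝ u v ≤ c j * inner ℝ u y' := by linarith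
      exact le_of_mul_le_mul_left h5 hcj
    obtain ⟨v, hv0, hv1, hv⟩ := hull_fin b hf
    obtain ⟨v', hv0', hv1', hv'⟩ := hull_fin b hg
    refine ⟨fun s => c i * v s + c j * v' s, fun s => ?_, ?_, ?_⟩
    · have := hv0 s
      have := hv0' s
      positivity
    · rw [Finset.sum_add_distrib, ← Finset.mul_sum, ← Finset.mul_sum, hv1, hv1']
      ring
    · have e1 : ∀ (v : Fin r → ℝ), ∑ s, v s = 1 → ∑ s, v s • (b s - z) = ∑ s, v s • b s - z := by
        intro v hv
        simp only [smul_sub, Finset.sum_sub_distrib]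
        rw [← Finset.sum_smul, hv, one_smul]
      have e2 : ∑ s, (c i * v s + c j * v' s) • (b s - z) = c i • ∑ s, v s • (b s - z) + c j • ∑ s, v' s • (b s - z) := by
        rw [Finset.smul_sum, Finset.smul_sum, ← Finset.sum_add_distrib]
        refine Finset.sum_congr rfl fun s _ => ?_
        rw [add_smul, mul_smul, mul_smul]
      rw [e2, e1 v hv1, e1 v' hv1', hv, hv']
      have e3 : x i + c i • y = x j + c j • y' := hyq.trans hyq'.symm
      simp only [hP]
      have e4 : x i = x j + c j • y' - c i • y := by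
        rw [← e3]
        abel
      rw [e4]
      module
  set L : Fin n → Fin r → ℝ := fun i s => l s (P i) with hL
  have hdiff' : ∀ i ∈ A, ∀ j ∈ B, (∀ s, L j s ≤ L i s) ∧ ∑ s, L i s - c i = ∑ s, L j s + c j ∧
      P i - P j = ∑ s, (L i s - L j s) • (b s - z) := by
    intro i hi j hj
    obtain ⟨a, ha0, ha1, ha⟩ := hdiff i hi j hj
    have h1 : ∀ s, L i s - L j s = a s := by
      intro s
      rw [hL]
      simp only
      rw [← map_sub, ha, hexp]
    refine ⟨fun s => ?_, ?_, ?_⟩
    · have := h1 s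
      have := ha0 s
      linarith
    · have h2 : ∑ s, L i s - ∑ s, L j s = c i + c j := by
        rw [← Finset.sum_sub_distrib, ← ha1]
        exact Finset.sum_congr rfl fun s _ => h1 s
      linarith
    · rw [ha]
      exact Finset.sum_congr rfl fun s _ => by rw [h1 s]
  -- interior points of the members
  have hin1 : ∀ i, ∀ a : Fin r → ℝ, (∀ s, 0 ≤ a s) → ∑ s, a s < c i →
      P i + ∑ s, a s • (b s - z) ∈ interior (hom K (c i) (x i)) := by
    intro i a ha0 ha1
    rw [hom_interior (hc i)]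
    refine ⟨z + ∑ s, (a s / c i) • (b s - z), near hK hzi hbK (fun s => div_nonneg (ha0 s) (hc i).le) ?_, ?_⟩
    · rw [← Finset.sum_div, div_lt_one (hc i)]
      exact ha1
    · simp only [hP, smul_add, Finset.smul_sum, smul_smul, mul_div_cancel₀ _ (hc i).ne']
      abel
  have hin2 : ∀ i, ∀ a : Fin r → ℝ, (∀ s, 0 ≤ a s) → ∑ s, a s < c i →
      P i - ∑ s, a s • (b s - z) ∈ interior (hom K (c i) (x i)) := by
    intro i a ha0 ha1
    rw [hom_interior (hc i)]
    have h1 := near hK hzi (b := fun s => z + z - b s) (fun s => hz _ (hbK s))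
      (a := fun s => a s / c i) (fun s => div_nonneg (ha0 s) (hc i).le) (by
        rw [← Finset.sum_div, div_lt_one (hc i)]
        exact ha1)
    refine ⟨_, h1, ?_⟩
    have e : ∀ s, z + z - b s - z = -(b s - z) := fun s => by abel
    simp only [hP, e, smul_neg, Finset.sum_neg_distrib, smul_add, Finset.smul_sum, smul_smul,
      mul_div_cancel₀ _ (hc i).ne']
    abel
  obtain ⟨j₁, hj₁, j₂, hj₂, hj12⟩ := Finset.one_lt_card.1 (lt_of_lt_of_le one_lt_two hB)
  have hAne : A.Nonempty := Finset.card_pos.1 (by omega)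
  obtain ⟨i₀, hi₀⟩ := hAne
  set τ := ∑ s, L i₀ s - c i₀ with hτ
  have hτB : ∀ j ∈ B, ∑ s, L j s + c j = τ := fun j hj => (hdiff' i₀ hi₀ j hj).2.1.symm
  have hτA : ∀ i ∈ A, ∑ s, L i s - c i = τ := fun i hi => by
    rw [(hdiff' i hi j₁ hj₁).2.1]
    exact hτB j₁ hj₁
  have hPA : ∀ i ∈ A, ∀ k ∈ A, P i - P k = ∑ s, (L i s - L k s) • (b s - z) := by
    intro i hi k hk
    have h1 := (hdiff' i hi j₁ hj₁).2.2
    have h2 := (hdiff' k hk j₁ hj₁).2.2
    have e : P i - P k = (P i - P j₁) - (P k - P j₁) := by abel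
    rw [e, h1, h2, ← Finset.sum_sub_distrib]
    refine Finset.sum_congr rfl fun s _ => ?_
    rw [← sub_smul]
    congr 1
    ring
  have hPB : ∀ j ∈ B, ∀ k ∈ B, P j - P k = ∑ s, (L j s - L k s) • (b s - z) := by
    intro j hj k hk
    have h1 := (hdiff' i₀ hi₀ j hj).2.2
    have h2 := (hdiff' i₀ hi₀ k hk).2.2
    have e : P j - P k = (P i₀ - P k) - (P i₀ - P j) := by abel
    rw [e, h1, h2, ← Finset.sum_sub_distrib]
    refine Finset.sum_congr rfl fun s _ => ?_
    rw [← sub_smul]
    congr 1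
    ring
  -- two members above
  have hmin : ∀ i ∈ A, ∀ k ∈ A, i ≠ k → ∑ s, min (L i s) (L k s) ≤ τ := by
    intro i hi k hk hik
    by_contra hcon
    rw [not_le] at hcon
    have h1 := hin2 i (fun s => L i s - min (L i s) (L k s)) (fun s => sub_nonneg.2 (min_le_left _ _)) (by
      rw [Finset.sum_sub_distrib]
      have := hτA i hi
      linarith)
    have h2 := hin2 k (fun s => L k s - min (L i s) (L k s)) (fun s => sub_nonneg.2 (min_le_right _ _)) (by
      rw [Finset.sum_sub_distrib]
      have := hτA k hk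
      linarith)
    have e : P k - ∑ s, (L k s - min (L i s) (L k s)) • (b s - z) =
        P i - ∑ s, (L i s - min (L i s) (L k s)) • (b s - z) := by
      have h3 := hPA i hi k hk
      have h4 : P i = P k + ∑ s, (L i s - L k s) • (b s - z) := by
        rw [← h3]
        abel
      have h6 : ∑ s, (L i s - L k s) • (b s - z) = ∑ s, (L i s - min (L i s) (L k s)) • (b s - z) -
          ∑ s, (L k s - min (L i s) (L k s)) • (b s - z) := by
        rw [← Finset.sum_sub_distrib]
        refine Finset.sum_congr rfl fun s _ => ?_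
        rw [← sub_smul]
        congr 1
        ring
      rw [h4, h6]
      abel
    rw [e] at h2
    have h5 : P i - ∑ s, (L i s - min (L i s) (L k s)) • (b s - z) ∈
        interior (hom K (c i) (x i)) ∩ interior (hom K (c k) (x k)) := ⟨h1, h2⟩
    rw [(ht i k hik).2] at h5
    exact h5
  have hmax : ∑ s, max (L j₁ s) (L j₂ s) ≥ τ := by
    by_contra hcon
    rw [ge_iff_le, not_le] at hcon
    have h1 := hin1 j₁ (fun s => max (L j₁ s) (L j₂ s) - L j₁ s) (fun s => sub_nonneg.2 (le_max_left _ _)) (by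
      rw [Finset.sum_sub_distrib]
      have := hτB j₁ hj₁
      linarith)
    have h2 := hin1 j₂ (fun s => max (L j₁ s) (L j₂ s) - L j₂ s) (fun s => sub_nonneg.2 (le_max_right _ _)) (by
      rw [Finset.sum_sub_distrib]
      have := hτB j₂ hj₂
      linarith)
    have e : P j₂ + ∑ s, (max (L j₁ s) (L j₂ s) - L j₂ s) • (b s - z) =
        P j₁ + ∑ s, (max (L j₁ s) (L j₂ s) - L j₁ s) • (b s - z) := by
      have h3 := hPB j₁ hj₁ j₂ hj₂
      have h4 : P j₁ = P j₂ + ∑ s, (L j₁ s - L j₂ s) • (b s - z) := by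
        rw [← h3]
        abel
      have h6 : ∑ s, (L j₁ s - L j₂ s) • (b s - z) = ∑ s, (max (L j₁ s) (L j₂ s) - L j₂ s) • (b s - z) -
          ∑ s, (max (L j₁ s) (L j₂ s) - L j₁ s) • (b s - z) := by
        rw [← Finset.sum_sub_distrib]
        refine Finset.sum_congr rfl fun s _ => ?_
        rw [← sub_smul]
        congr 1
        ring
      rw [h4, h6]
      abel
    rw [e] at h2
    have h5 : P j₁ + ∑ s, (max (L j₁ s) (L j₂ s) - L j₁ s) • (b s - z) ∈
        interior (hom K (c j₁) (x j₁)) ∩ interior (hom K (c j₂) (x j₂)) := ⟨h1, h2⟩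
    rw [(ht j₁ j₂ hj12).2] at h5
    exact h5
  -- the common meet
  set Z : Fin r → ℝ := fun s => max (L j₁ s) (L j₂ s) with hZ
  have hZle : ∀ i ∈ A, ∀ s, Z s ≤ L i s := fun i hi s =>
    max_le ((hdiff' i hi j₁ hj₁).1 s) ((hdiff' i hi j₂ hj₂).1 s)
  have hpair : ∀ i ∈ A, ∀ k ∈ A, i ≠ k → ∀ s, min (L i s) (L k s) = Z s := by
    intro i hi k hk hik
    have h1 : ∀ s ∈ (univ : Finset (Fin r)), Z s ≤ min (L i s) (L k s) := fun s _ => le_min (hZle i hi s) (hZle k hk s)
    have h2 : ∑ s, Z s = ∑ s, min (L i s) (L k s) :=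
      le_antisymm (Finset.sum_le_sum h1) ((hmin i hi k hk hik).trans hmax)
    intro s
    exact ((Finset.sum_eq_sum_iff_of_le h1).1 h2 s (mem_univ s)).symm
  -- the sum of `Z` is `τ` as soon as `A` has two members
  by_cases hA1 : A.card ≤ 1
  · -- `m = 0`
    have hm0 : m = 0 := by omega
    subst hm0
    exact hu (Subsingleton.elim _ _)
  · obtain ⟨i₁, hi₁, i₂, hi₂, hi12⟩ := Finset.one_lt_card.1 (not_le.1 hA1)
    have hZτ : ∑ s, Z s ≤ τ := by
      have h1 := hmin i₁ hi₁ i₂ hi₂ hi12
      have h2 : ∑ s, min (L i₁ s) (L i₂ s) = ∑ s, Z s :=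
        Finset.sum_congr rfl fun s _ => hpair i₁ hi₁ i₂ hi₂ hi12 s
      linarith
    have hex : ∀ i, ∃ s : Fin r, i ∈ A → Z s < L i s := by
      intro i
      by_cases hi : i ∈ A
      · by_contra hcon
        push Not at hcon
        have h1 : ∑ s, L i s ≤ ∑ s, Z s := Finset.sum_le_sum fun s _ => (hcon s).2
        have h2 := hτA i hi
        have h3 := hc i
        linarith
      · have hr0 : 0 < r := by
          by_contra h0
          have h0' : r = 0 := by omega
          subst h0'
          have h2 := hτA i₁ hi₁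
          have h3 := hc i₁
          have h4 : ∑ s, Z s ≤ τ := hZτ
          simp only [Finset.univ_eq_empty, Finset.sum_empty] at h2 h4
          linarith
        exact ⟨⟨0, hr0⟩, fun h => absurd h hi⟩
    choose σ hσ using hex
    have hinj : Set.InjOn σ A := by
      intro i hi k hk hik
      by_contra hne
      have h1 := hpair i hi k hk hne (σ i)
      have h2 := hσ i hi
      have h3 := hσ k hk
      rw [← hik] at h3
      have h4 : Z (σ i) < min (L i (σ i)) (L k (σ i)) := lt_min h2 h3
      linarith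
    have h1 : A.card ≤ (univ : Finset (Fin r)).card := Finset.card_le_card_of_injOn σ (fun _ _ => mem_univ _) hinj
    rw [Finset.card_univ, Fintype.card_fin] at h1
    omega

/-- The exposed faces of a strictly convex body are points. -/
theorem simplexFace_of_strictConvex (hs : StrictConvex ℝ K) (hKc : IsCompact K) (hne : K.Nonempty)
    {u : EuclideanSpace ℝ (Fin m)} (hu : u ≠ 0) : SimplexFace K u := by
  obtain ⟨p, hp, hpmax⟩ := hKc.exists_isMaxOn hne (f := fun y => inner ℝ u y) (by fun_prop)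
  have hpmax' : ∀ y ∈ K, inner ℝ u y ≤ inner ℝ u p := fun y hy => hpmax hy
  refine ⟨1, fun _ => p, affineIndependent_of_subsingleton ℝ _, ?_⟩
  rw [Set.range_const, convexHull_singleton]
  ext y
  simp only [Set.mem_ofPred_eq, Set.mem_singleton_iff]
  constructor
  · rintro ⟨hy, hy1⟩
    by_contra hne'
    have hyp : inner ℝ u y = inner ℝ u p := le_antisymm (hpmax' y hy) (hy1 p hp)
    have hmid := hs hy hp hne' (a := 1 / 2) (b := 1 / 2) (by norm_num) (by norm_num) (by norm_num)
    set q := (1 / 2 : ℝ) • y + (1 / 2 : ℝ) • p with hq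
    have hqu : inner ℝ u q = inner ℝ u p := by
      rw [hq, inner_add_right, real_inner_smul_right, real_inner_smul_right, hyp]
      ring
    obtain ⟨ε, hε, hball⟩ := Metric.isOpen_iff.1 isOpen_interior q hmid
    have hun : 0 < ‖u‖ := norm_pos_iff.2 hu
    have hmem : q + (ε / (2 * ‖u‖)) • u ∈ K := by
      apply interior_subset
      apply hball
      rw [Metric.mem_ball, dist_eq_norm, add_sub_cancel_left, norm_smul, Real.norm_eq_abs, abs_of_pos (by positivity)]
      have : ε / (2 * ‖u‖) * ‖u‖ = ε / 2 := by field_simp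
      rw [this]; linarith
    have h6 := hpmax' _ hmem
    rw [inner_add_right, hqu, real_inner_smul_right, real_inner_self_eq_norm_mul_norm] at h6
    have : 0 < ε / (2 * ‖u‖) * (‖u‖ * ‖u‖) := by positivity
    linarith
  · rintro rfl
    exact ⟨hp, hpmax'⟩

/-- **Theorem S from the certificate**: seven, if every exposed face is a simplex. -/
theorem seven_of_cert (hcert : Cert) {K : Set (EuclideanSpace ℝ (Fin 3))} (hK : Convex ℝ K) (hKc : IsCompact K)
    (hKi : (interior K).Nonempty) {z : EuclideanSpace ℝ (Fin 3)} (hz : ∀ y ∈ K, z + z - y ∈ K)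
    (hF : ∀ u : EuclideanSpace ℝ (Fin 3), u ≠ 0 → SimplexFace K u) {n : ℕ} {c : Fin n → ℝ}
    {x : Fin n → EuclideanSpace ℝ (Fin 3)} (hc : ∀ i, 0 < c i)
    (ht : ∀ i j, i ≠ j → (hom K (c i) (x i) ∩ hom K (c j) (x j)).Nonempty ∧
      interior (hom K (c i) (x i)) ∩ interior (hom K (c j) (x j)) = ∅) : n ≤ 7 := by
  by_contra hn
  have h8 : 8 ≤ n := by omega
  have hc' : ∀ i : Fin 8, 0 < c (Fin.castLE h8 i) := fun i => hc _
  have ht' : ∀ i j : Fin 8, i ≠ j → (hom K (c (Fin.castLE h8 i)) (x (Fin.castLE h8 i)) ∩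
      hom K (c (Fin.castLE h8 j)) (x (Fin.castLE h8 j))).Nonempty ∧
      interior (hom K (c (Fin.castLE h8 i)) (x (Fin.castLE h8 i))) ∩
        interior (hom K (c (Fin.castLE h8 j)) (x (Fin.castLE h8 j))) = ∅ :=
    fun i j hij => ht _ _ fun h => hij (Fin.castLE_injective h8 h)
  obtain ⟨u, t, hu, A, B, hA, hB, hAB, hAt, hBt⟩ := plane_of_cert hcert hK hKc hKi hz
    (c := fun i => c (Fin.castLE h8 i)) (x := fun i => x (Fin.castLE h8 i)) hc' ht'
  exact no_plane hK hKc hKi hz (c := fun i => c (Fin.castLE h8 i)) (x := fun i => x (Fin.castLE h8 i)) hc' ht' hu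
    (hF u hu) (by omega) (by omega) hAB hAt hBt

end E8K
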