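import Pool.Agent.E8K.K33
import Pool.Agent.E8K.Lab

/-!
# Smooth bodies with centrally symmetric faces

If `K` is smooth and centrally symmetric in `ℝ³` and its exposed faces are centrally symmetric, then no plane
supports three members of a tangent family from above and three from below.
-/

set_option autoImplicit false

namespace E8K

open C1S

variable {m : ℕ} {K : Set (EuclideanSpace ℝ (Fin m))}

/-- the exposed face of `K` in the direction `u` -/
def Face (K : Set (EuclideanSpace ℝ (Fin m))) (u : EuclideanSpace ℝ (Fin m)) :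
    Set (EuclideanSpace ℝ (Fin m)) := {y | y ∈ K ∧ ∀ w ∈ K, inner ℝ u w ≤ inner ℝ u y}

/-- `K` has one supporting plane at every boundary point. -/
def SmoothBody (K : Set (EuclideanSpace ℝ (Fin m))) : Prop :=
  ∀ y (u v : EuclideanSpace ℝ (Fin m)), y ∈ Face K u → y ∈ Face K v → SameRay ℝ u v

/-- The exposed face in the direction `u` is centrally symmetric. -/
def SymFace (K : Set (EuclideanSpace ℝ (Fin m))) (u : EuclideanSpace ℝ (Fin m)) : Prop :=
  ∃ a, ∀ y ∈ Face K u, a + a - y ∈ Face K u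

theorem face_convex (hK : Convex ℝ K) (u : EuclideanSpace ℝ (Fin m)) : Convex ℝ (Face K u) := by
  rintro x ⟨hx, hx'⟩ y ⟨hy, hy'⟩ a b ha hb hab
  refine ⟨hK hx hy ha hb hab, fun w hw => ?_⟩
  rw [inner_add_right, real_inner_smul_right, real_inner_smul_right]
  have h1 := mul_le_mul_of_nonneg_left (hx' w hw) ha
  have h2 := mul_le_mul_of_nonneg_left (hy' w hw) hb
  calc inner ℝ u w = a * inner ℝ u w + b * inner ℝ u w := by rw [← add_mul, hab, one_mul]
    _ ≤ _ := add_le_add h1 h2

theorem face_eq {u y y' : EuclideanSpace ℝ (Fin m)} (h : y ∈ Face K u) (h' : y' ∈ Face K u) :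
    inner ℝ u y = inner ℝ u y' :=
  le_antisymm (h'.2 _ h.1) (h.2 _ h'.1)

/-- the point reflected at the center maximises the opposite direction -/
theorem face_neg {z : EuclideanSpace ℝ (Fin m)} (hz : ∀ y ∈ K, z + z - y ∈ K)
    {u y : EuclideanSpace ℝ (Fin m)} (h : y ∈ Face K u) : z + z - y ∈ Face K (-u) := by
  refine ⟨hz y h.1, fun w hw => ?_⟩
  have h1 := h.2 _ (hz w hw)
  rw [inner_neg_left, inner_neg_left, inner_sub_right, inner_add_right]
  rw [inner_sub_right, inner_add_right] at h1
  linarith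

theorem three : ∀ i j k a : Fin 3, i ≠ j → i ≠ k → j ≠ k → a = i ∨ a = j ∨ a = k := by decide

/-- coordinates of the plane orthogonal to `u` -/
theorem exists_coord {u : EuclideanSpace ℝ (Fin 3)} (hu : u ≠ 0) :
    ∃ π : EuclideanSpace ℝ (Fin 3) →ₗ[ℝ] ℝ × ℝ, ∀ v, inner ℝ u v = 0 → π v = 0 → v = 0 := by
  obtain ⟨i, hi⟩ : ∃ i, u i ≠ 0 := by
    by_contra h
    push Not at h
    exact hu (by ext i; simpa using h i)
  have key : ∀ j k : Fin 3, i ≠ j → i ≠ k → j ≠ k →
      ∃ π : EuclideanSpace ℝ (Fin 3) →ₗ[ℝ] ℝ × ℝ, ∀ v, inner ℝ u v = 0 → π v = 0 → v = 0 := by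
    intro j k hij hik hjk
    refine ⟨{ toFun := fun v => (v j, v k), map_add' := fun v w => rfl, map_smul' := fun c v => rfl },
      fun v h1 h2 => ?_⟩
    have h3 : v j = 0 := congrArg Prod.fst h2
    have h4 : v k = 0 := congrArg Prod.snd h2
    rw [PiLp.inner_apply, sum3 (fun a => inner ℝ (u a) (v a)) hij hik hjk, h3, h4] at h1
    simp only [RCLike.inner_apply, conj_trivial, zero_mul, add_zero, mul_eq_zero] at h1
    have h5 : v i = 0 := by
      rcases h1 with h1 | h1
      · exact h1
      · exact absurd h1 hi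
    ext a
    rcases three i j k a hij hik hjk with rfl | rfl | rfl
    · simpa using h5
    · simpa using h3
    · simpa using h4
  fin_cases i
  · exact key 1 2 (by decide) (by decide) (by decide)
  · exact key 0 2 (by decide) (by decide) (by decide)
  · exact key 0 1 (by decide) (by decide) (by decide)

section main

variable {c : ℝ} {x z u q : EuclideanSpace ℝ (Fin m)} {t : ℝ}

theorem above_face (hz : ∀ y ∈ K, z + z - y ∈ K) (hc : 0 < c) (h : Above u t (hom K c x))
    {y : EuclideanSpace ℝ (Fin m)} (hy : y ∈ K) (hq : inner ℝ u (x + c • y) = t) :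
    z + z - y ∈ Face K u := by
  refine ⟨hz y hy, fun w hw => ?_⟩
  have h1 := h.1 _ ⟨z + z - w, hz w hw, rfl⟩
  simp only at h1
  rw [← hq, inner_add_right, inner_add_right, real_inner_smul_right, real_inner_smul_right] at h1
  have h2 := le_of_mul_le_mul_left (by linarith : c * inner ℝ u y ≤ c * inner ℝ u (z + z - w)) hc
  rw [inner_sub_right] at h2 ⊢
  linarith

theorem below_face (hc : 0 < c) (h : Below u t (hom K c x))
    {y : EuclideanSpace ℝ (Fin m)} (hy : y ∈ K) (hq : inner ℝ u (x + c • y) = t) :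
    y ∈ Face K u := by
  refine ⟨hy, fun w hw => ?_⟩
  have h1 := h.1 _ ⟨w, hw, rfl⟩
  simp only at h1
  rw [← hq, inner_add_right, inner_add_right, real_inner_smul_right, real_inner_smul_right] at h1
  exact le_of_mul_le_mul_left (by linarith : c * inner ℝ u w ≤ c * inner ℝ u y) hc

/-- Two tangent members with a common point at which `u` supports both from the same side. -/
theorem no_common (hK : Convex ℝ K) (hKc : IsCompact K) (hKi : (interior K).Nonempty)
    (hz : ∀ y ∈ K, z + z - y ∈ K) (hS : SmoothBody K) (hu : u ≠ 0) {c' : ℝ}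
    {x' : EuclideanSpace ℝ (Fin m)} (hc : 0 < c) (hc' : 0 < c')
    (h1 : (hom K c x ∩ hom K c' x').Nonempty)
    (h2 : interior (hom K c x) ∩ interior (hom K c' x') = ∅) {y y' : EuclideanSpace ℝ (Fin m)}
    (hy : y ∈ Face K u) (hy' : y' ∈ Face K u) (h : x + c • y = x' + c' • y') : False := by
  obtain ⟨v, s, h3, ⟨p, hp, hp1⟩, h4, h5⟩ := exists_sep hK hKc hKi hz hc hc' h1 h2
  have e : ∀ (c : ℝ) (x y : EuclideanSpace ℝ (Fin m)),
      inner ℝ v (x + c • y) = inner ℝ v (x + c • z) + c * inner ℝ v (y - z) := by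
    intro c x y
    rw [inner_add_right, inner_add_right, inner_sub_right, real_inner_smul_right,
      real_inner_smul_right]
    ring
  have h6 : inner ℝ v (x + c • y) = inner ℝ v (x' + c' • y') := by rw [h]
  rw [e c x y, e c' x' y'] at h6
  have h7 := abs_le.1 (h3 y hy.1)
  have h8 := abs_le.1 (h3 y' hy'.1)
  have h9 := mul_le_mul_of_nonneg_left h7.1 hc.le
  have h10 := mul_le_mul_of_nonneg_left h8.2 hc'.le
  have h11 : inner ℝ v (y - z) = -1 := by
    have : c * inner ℝ v (y - z) = c * (-1) := by linarith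
    exact mul_left_cancel₀ hc.ne' this
  have h12 : inner ℝ v (y' - z) = 1 := by
    have : c' * inner ℝ v (y' - z) = c' * 1 := by linarith
    exact mul_left_cancel₀ hc'.ne' this
  have h13 : y ∈ Face K (-v) := by
    refine ⟨hy.1, fun w hw => ?_⟩
    have h14 := (abs_le.1 (h3 w hw)).1
    rw [inner_sub_right] at h14 h11
    rw [inner_neg_left, inner_neg_left]
    linarith
  have h15 : y' ∈ Face K v := by
    refine ⟨hy'.1, fun w hw => ?_⟩
    have h14 := (abs_le.1 (h3 w hw)).2
    rw [inner_sub_right] at h14 h12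
    linarith
  have h16 : SameRay ℝ u (-v) := hS y u (-v) hy h13
  have h17 : SameRay ℝ u v := hS y' u v hy' h15
  have h18 : SameRay ℝ v (-v) := h17.symm.trans h16 fun h => absurd h hu
  have h19 : v = 0 := eq_zero_of_sameRay_self_neg h18
  rw [h19, inner_zero_left] at hp1
  norm_num at hp1

end main

/-- **No plane supports three members from above and three from below.** -/
theorem no_plane_smooth {K : Set (EuclideanSpace ℝ (Fin 3))} (hK : Convex ℝ K) (hKc : IsCompact K)
    (hKi : (interior K).Nonempty) {z : EuclideanSpace ℝ (Fin 3)} (hz : ∀ y ∈ K, z + z - y ∈ K)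
    (hS : SmoothBody K) {n : ℕ} {c : Fin n → ℝ} {x : Fin n → EuclideanSpace ℝ (Fin 3)}
    (hc : ∀ i, 0 < c i)
    (ht : ∀ i j, i ≠ j → (hom K (c i) (x i) ∩ hom K (c j) (x j)).Nonempty ∧
      interior (hom K (c i) (x i)) ∩ interior (hom K (c j) (x j)) = ∅)
    {u : EuclideanSpace ℝ (Fin 3)} {t : ℝ} (hu : u ≠ 0) (hF : SymFace K u) {A B : Finset (Fin n)}
    (hA : 3 ≤ A.card) (hB : 3 ≤ B.card) (hAB : Disjoint A B)
    (hAt : ∀ k ∈ A, Above u t (hom K (c k) (x k))) (hBt : ∀ k ∈ B, Below u t (hom K (c k) (x k))) :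
    False := by
  -- three members on each side
  obtain ⟨A', hA', hA3⟩ := Finset.exists_subset_card_eq hA
  obtain ⟨B', hB', hB3⟩ := Finset.exists_subset_card_eq hB
  set α : Fin 3 → Fin n := fun i => A'.orderEmbOfFin hA3 i with hα
  set β : Fin 3 → Fin n := fun i => B'.orderEmbOfFin hB3 i with hβ
  have hαi : Function.Injective α := (A'.orderEmbOfFin hA3).injective
  have hβi : Function.Injective β := (B'.orderEmbOfFin hB3).injective
  have hαA : ∀ i, α i ∈ A := fun i => hA' (Finset.orderEmbOfFin_mem A' hA3 i)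
  have hβB : ∀ i, β i ∈ B := fun i => hB' (Finset.orderEmbOfFin_mem B' hB3 i)
  have hαβ : ∀ i j, α i ≠ β j := fun i j h =>
    Finset.disjoint_left.1 hAB (hαA i) (h ▸ hβB j)
  obtain ⟨a, ha⟩ := hF
  have hFc := face_convex hK u
  -- the symmetric set of differences
  set D : Set (EuclideanSpace ℝ (Fin 3)) := {d | a + d ∈ Face K u} with hD
  have hDn : ∀ d ∈ D, -d ∈ D := by
    intro d hd
    have h1 := ha _ hd
    rw [show a + a - (a + d) = a + -d by abel] at h1
    exact h1
  have hDc : ∀ d ∈ D, ∀ e ∈ D, ∀ r s : ℝ, 0 ≤ r → 0 ≤ s → 0 < r + s → ∃ f ∈ D,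
      r • d + s • e = (r + s) • f := by
    intro d hd e he r s hr hs hrs
    refine ⟨(r / (r + s)) • d + (s / (r + s)) • e, ?_, ?_⟩
    · have h1 := hFc hd he (div_nonneg hr hrs.le) (div_nonneg hs hrs.le)
        (by rw [← add_div, div_self hrs.ne'])
      have e1 : (r / (r + s)) • (a + d) + (s / (r + s)) • (a + e) =
          a + ((r / (r + s)) • d + (s / (r + s)) • e) := by
        rw [smul_add, smul_add]
        have : (r / (r + s)) • a + (s / (r + s)) • a = a := by
          rw [← add_smul, ← add_div, div_self hrs.ne', one_smul]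
        nth_rw 3 [← this]
        abel
      rw [e1] at h1
      exact h1
    · rw [smul_add, smul_smul, smul_smul, mul_div_cancel₀ _ hrs.ne', mul_div_cancel₀ _ hrs.ne']
  have hD0 : ∀ d ∈ D, ∀ r s : ℝ, 0 ≤ r → r ≤ s → 0 < s → ∃ f ∈ D, r • d = s • f := by
    intro d hd r s hr hrs hs
    obtain ⟨f, hf, h1⟩ := hDc d hd (-d) (hDn d hd) ((r + s) / 2) ((s - r) / 2) (by linarith)
      (by linarith) (by linarith)
    refine ⟨f, hf, ?_⟩
    rw [show (r + s) / 2 + (s - r) / 2 = s by ring] at h1
    rw [← h1, smul_neg, ← sub_eq_add_neg, ← sub_smul]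
    congr 1
    ring
  -- the centers of the faces
  set P : Fin 3 → EuclideanSpace ℝ (Fin 3) := fun i => x (α i) + c (α i) • (z + z - a) with hP
  set Q : Fin 3 → EuclideanSpace ℝ (Fin 3) := fun j => x (β j) + c (β j) • a with hQ
  -- members on different sides
  have cross : ∀ i j, ∃ d ∈ D, P i - Q j = (c (α i) + c (β j)) • d := by
    intro i j
    obtain ⟨_, ⟨y, hy, rfl⟩, ⟨y', hy', h1⟩⟩ := (ht (α i) (β j) (hαβ i j)).1
    simp only at h1
    have h2 := (hAt _ (hαA i)).1 _ ⟨y, hy, rfl⟩
    have h3 := (hBt _ (hβB j)).1 _ ⟨y', hy', rfl⟩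
    simp only at h2 h3
    rw [h1] at h3
    have h4 := le_antisymm h3 h2
    have h5 := above_face hz (hc _) (hAt _ (hαA i)) hy h4
    have h6 := below_face (hc _) (hBt _ (hβB j)) hy' (by rw [h1]; exact h4)
    have h7 : z + z - y - a ∈ D := by
      rw [hD]
      show a + (z + z - y - a) ∈ Face K u
      rw [show a + (z + z - y - a) = z + z - y by abel]
      exact h5
    have h8 : y' - a ∈ D := by
      rw [hD]
      show a + (y' - a) ∈ Face K u
      rw [show a + (y' - a) = y' by abel]
      exact h6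
    obtain ⟨f, hf, h9⟩ := hDc _ h7 _ h8 (c (α i)) (c (β j)) (hc _).le (hc _).le
      (add_pos (hc _) (hc _))
    refine ⟨f, hf, ?_⟩
    rw [← h9]
    simp only [hP, hQ]
    have e1 : x (β j) = x (α i) + c (α i) • y - c (β j) • y' := by rw [← h1]; abel
    rw [e1]
    module
  -- members on the same side
  have disA : ∀ i k, i ≠ k → ∀ d ∈ D, ∀ r, 0 ≤ r → r ≤ c (α i) + c (α k) →
      P i - P k = r • d → False := by
    intro i k hik d hd r hr hr' h1
    obtain ⟨f, hf, h2⟩ := hD0 d hd r _ hr hr' (add_pos (hc _) (hc _))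
    rw [h2] at h1
    have hne := fun h => hik (hαi h)
    refine no_common hK hKc hKi hz hS (neg_ne_zero.2 hu) (hc _) (hc _) (ht _ _ hne).1 (ht _ _ hne).2
      (face_neg hz hf) (face_neg hz (hDn f hf)) ?_
    simp only [hP] at h1
    have e1 : x (α i) = x (α k) + c (α k) • (z + z - a) + (c (α i) + c (α k)) • f -
        c (α i) • (z + z - a) := by rw [← h1]; abel
    rw [e1]
    module
  have disB : ∀ i k, i ≠ k → ∀ d ∈ D, ∀ r, 0 ≤ r → r ≤ c (β i) + c (β k) →
      Q i - Q k = r • d → False := by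
    intro i k hik d hd r hr hr' h1
    obtain ⟨f, hf, h2⟩ := hD0 d hd r _ hr hr' (add_pos (hc _) (hc _))
    rw [h2] at h1
    have hne := fun h => hik (hβi h)
    refine no_common hK hKc hKi hz hS hu (hc _) (hc _) (ht _ _ hne).1 (ht _ _ hne).2
      (hDn f hf) hf ?_
    simp only [hQ] at h1
    have e1 : x (β i) = x (β k) + c (β k) • a + (c (β i) + c (β k)) • f - c (β i) • a := by
      rw [← h1]; abel
    rw [e1]
    module
  -- all centers lie in the plane
  have hplane : ∀ i j, inner ℝ u (P i - Q j) = 0 := by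
    intro i j
    obtain ⟨d, hd, h1⟩ := cross i j
    rw [h1, real_inner_smul_right]
    have h2 := face_eq hd (hDn d hd)
    rw [inner_add_right, inner_add_right, inner_neg_right] at h2
    have h3 : inner ℝ u d = 0 := by linarith
    rw [h3, mul_zero]
  obtain ⟨π, hπ⟩ := exists_coord hu
  obtain ⟨i, k, j, l, hik, hjl, s, r, hs, hr, hsr⟩ := meet (fun i => π (P i)) (fun j => π (Q j))
  have hZ : (1 - s) • P i + s • Q j = (1 - r) • P k + r • Q l := by
    rw [← sub_eq_zero]
    refine hπ _ ?_ ?_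
    · have h1 := hplane i j
      have h2 := hplane k l
      have h3 := hplane i l
      rw [inner_sub_right] at h1 h2 h3
      rw [inner_sub_right, inner_add_right, inner_add_right, real_inner_smul_right,
        real_inner_smul_right, real_inner_smul_right, real_inner_smul_right]
      linear_combination (-s) * h1 + (r - 1) * h2 + h3
    · rw [map_sub, map_add, map_add, map_smul, map_smul, map_smul, map_smul, hsr, sub_self]
  obtain ⟨d, hd, h1⟩ := cross i j
  obtain ⟨e, he, h2⟩ := cross k l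
  have hci := hc (α i)
  have hck := hc (α k)
  have hcj := hc (β j)
  have hcl := hc (β l)
  have hPP : P i - P k = (s * (c (α i) + c (β j))) • d + (r * (c (α k) + c (β l))) • (-e) := by
    rw [mul_smul, mul_smul, smul_neg (c (α k) + c (β l)) e, ← h1, ← h2]
    have h3 : P i = (1 - r) • P k + r • Q l - s • Q j + s • P i := by rw [← hZ]; module
    nth_rw 1 [h3]
    module
  have hQQ : Q j - Q l = ((1 - r) * (c (α k) + c (β l))) • e +
      ((1 - s) * (c (α i) + c (β j))) • (-d) := by
    rw [mul_smul, mul_smul, smul_neg (c (α i) + c (β j)) d, ← h1, ← h2]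
    have h3 : Q j = (1 - r) • P k + r • Q l - (1 - s) • P i + (1 - s) • Q j := by rw [← hZ]; module
    nth_rw 1 [h3]
    module
  have n1 : 0 ≤ s * (c (α i) + c (β j)) := mul_nonneg hs.1 (by linarith)
  have n2 : 0 ≤ r * (c (α k) + c (β l)) := mul_nonneg hr.1 (by linarith)
  have n3 : 0 ≤ (1 - r) * (c (α k) + c (β l)) := mul_nonneg (by linarith [hr.2]) (by linarith)
  have n4 : 0 ≤ (1 - s) * (c (α i) + c (β j)) := mul_nonneg (by linarith [hs.2]) (by linarith)
  -- a set scaled by zero
  have hcomb : ∀ d ∈ D, ∀ e ∈ D, ∀ r s : ℝ, 0 ≤ r → 0 ≤ s → ∃ f ∈ D,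
      r • d + s • e = (r + s) • f := by
    intro d hd e he r s hr hs
    rcases eq_or_lt_of_le (add_nonneg hr hs) with h | h
    · have hr0 : r = 0 := by linarith
      have hs0 : s = 0 := by linarith
      exact ⟨d, hd, by rw [hr0, hs0]; simp⟩
    · exact hDc d hd e he r s hr hs h
  obtain ⟨f, hf, h3⟩ := hcomb d hd (-e) (hDn e he) _ _ n1 n2
  obtain ⟨g, hg, h4⟩ := hcomb e he (-d) (hDn d hd) _ _ n3 n4
  rcases le_or_gt (s * (c (α i) + c (β j)) + r * (c (α k) + c (β l))) (c (α i) + c (α k)) with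
    h5 | h5
  · exact disA i k hik f hf _ (add_nonneg n1 n2) h5 (hPP.trans h3)
  · exact disB j l hjl g hg _ (add_nonneg n3 n4) (by linarith) (hQQ.trans h4)

end E8K
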