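import Pool.Agent.E8K.Smooth

/-!
# A smooth body from labelled points

Points `x i` and ratios `c i` with vectors `u i j` (`i < j`) such that `u i j` separates the pair `i, j` strictly
better than every pair with another vector: there is a smooth centrally symmetric convex body whose homothets
`x i + c i K` are pairwise tangent (the convex hull of finitely many points plus a small ball).
-/

set_option autoImplicit false

namespace E8K

open C1S Filter Topology Pointwise

variable {m : ℕ}

theorem abs_inner_smul_unit {u v : EuclideanSpace ℝ (Fin m)} :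
    |inner ℝ u (‖v‖⁻¹ • v)| ≤ ‖u‖ := by
  refine (abs_real_inner_le_norm _ _).trans ?_
  rw [norm_smul, norm_inv, norm_norm]
  rcases eq_or_ne ‖v‖ 0 with h | h
  · rw [h]; simp
  · rw [inv_mul_cancel₀ h, mul_one]

theorem inner_smul_unit (u : EuclideanSpace ℝ (Fin m)) : inner ℝ u (‖u‖⁻¹ • u) = ‖u‖ := by
  rcases eq_or_ne ‖u‖ 0 with h | h
  · rw [norm_eq_zero.1 h]; simp
  · rw [real_inner_smul_right, real_inner_self_eq_norm_sq]
    field_simp

/-- **A convex set plus a ball is smooth.** -/
theorem smooth_add_ball (P : Set (EuclideanSpace ℝ (Fin m))) {ε : ℝ} (hε : 0 < ε) :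
    SmoothBody (P + Metric.closedBall (0 : EuclideanSpace ℝ (Fin m)) ε) := by
  -- a ball point maximises only its own direction
  have key : ∀ a ∈ P, ∀ b ∈ Metric.closedBall (0 : EuclideanSpace ℝ (Fin m)) ε, ∀ u,
      (∀ w ∈ P + Metric.closedBall (0 : EuclideanSpace ℝ (Fin m)) ε, inner ℝ u w ≤ inner ℝ u (a + b)) →
      u = 0 ∨ (SameRay ℝ u b ∧ b ≠ 0) := by
    intro a ha b hb u h
    by_cases hu : u = 0
    · exact Or.inl hu
    right
    have hun : 0 < ‖u‖ := norm_pos_iff.2 hu
    have h1 := h (a + (ε * ‖u‖⁻¹) • u) (Set.add_mem_add ha (by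
      rw [mem_closedBall_zero_iff, norm_smul, Real.norm_eq_abs, abs_of_pos (by positivity), mul_assoc,
        inv_mul_cancel₀ hun.ne', mul_one]))
    rw [inner_add_right, inner_add_right, real_inner_smul_right, real_inner_self_eq_norm_sq] at h1
    have h2 : ε * ‖u‖⁻¹ * ‖u‖ ^ 2 = ε * ‖u‖ := by field_simp
    rw [h2] at h1
    have h3 : ‖b‖ ≤ ε := mem_closedBall_zero_iff.1 hb
    have h4 := real_inner_le_norm u b
    have h5 : ‖u‖ * ‖b‖ ≤ ‖u‖ * ε := mul_le_mul_of_nonneg_left h3 hun.le
    have h6 : inner ℝ u b = ‖u‖ * ‖b‖ := by nlinarith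
    refine ⟨sameRay_iff_norm_smul_eq.2 ?_, ?_⟩
    · exact (inner_eq_norm_mul_iff_real.1 h6).symm
    · rintro rfl
      rw [inner_zero_right] at h1
      nlinarith
  rintro y u v ⟨hy, hu⟩ ⟨-, hv⟩
  obtain ⟨a, ha, b, hb, rfl⟩ := hy
  rcases key a ha b hb u hu with rfl | ⟨h1, hb0⟩
  · exact SameRay.zero_left _
  rcases key a ha b hb v hv with rfl | ⟨h2, -⟩
  · exact SameRay.zero_right _
  exact h1.trans h2.symm fun h => absurd h hb0

/-- Two homothets of a symmetric body inside the slab `|⟨u, ·⟩| ≤ 1` whose centres are at distance `c + d`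
in the direction `u`, with contact point `w`, are tangent. -/
theorem touch_of_slab {K : Set (EuclideanSpace ℝ (Fin m))} {c d : ℝ} (hc : 0 < c) (hd : 0 < d)
    {x y u w : EuclideanSpace ℝ (Fin m)} (hw : x - y = (c + d) • w) (hwK : w ∈ K) (hwK' : -w ∈ K)
    (huw : inner ℝ u w = 1) (hslab : ∀ z ∈ K, |inner ℝ u z| ≤ 1) :
    (hom K c x ∩ hom K d y).Nonempty ∧ interior (hom K c x) ∩ interior (hom K d y) = ∅ := by
  refine ⟨⟨x + c • (-w), ⟨-w, hwK', rfl⟩, ⟨w, hwK, ?_⟩⟩, ?_⟩
  · show y + d • w = x + c • (-w)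
    have e2 : x = y + (c + d) • w := by rw [← hw]; abel
    rw [e2]
    module
  · rw [Set.eq_empty_iff_forall_notMem]
    rintro z ⟨hy1, hy2⟩
    have hlo : ∀ z ∈ hom K c x, inner ℝ u x - c ≤ inner ℝ u z := by
      rintro _ ⟨z, hz, rfl⟩
      show _ ≤ inner ℝ u (x + c • z)
      have h3 := (abs_le.1 (hslab z hz)).1
      rw [inner_add_right, real_inner_smul_right]
      nlinarith
    have hhi : ∀ z ∈ hom K d y, inner ℝ u z ≤ inner ℝ u y + d := by
      rintro _ ⟨z, hz, rfl⟩
      show inner ℝ u (y + d • z) ≤ _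
      have h3 := (abs_le.1 (hslab z hz)).2
      rw [inner_add_right, real_inner_smul_right]
      nlinarith
    have heq : inner ℝ u x - c = inner ℝ u y + d := by
      have h0 : inner ℝ u (x - y) = c + d := by rw [hw, real_inner_smul_right, huw, mul_one]
      rw [inner_sub_right] at h0
      linarith
    have hu : u ≠ 0 := by
      rintro rfl
      rw [inner_zero_left] at huw
      norm_num at huw
    have huu : 0 < inner ℝ u u := real_inner_self_pos.2 hu
    obtain ⟨δ, hδ, hball⟩ := Metric.isOpen_iff.1 isOpen_interior z hy2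
    have hun : 0 < ‖u‖ := norm_pos_iff.2 hu
    have hmem : z + (δ / (2 * ‖u‖)) • u ∈ hom K d y := by
      apply interior_subset
      apply hball
      rw [Metric.mem_ball, dist_eq_norm, add_sub_cancel_left, norm_smul, Real.norm_eq_abs,
        abs_of_pos (by positivity)]
      have : δ / (2 * ‖u‖) * ‖u‖ = δ / 2 := by field_simp
      rw [this]; linarith
    have h3 := hhi _ hmem
    have h4 := hlo z (interior_subset hy1)
    rw [inner_add_right, real_inner_smul_right] at h3
    have h5 : 0 < δ / (2 * ‖u‖) * inner ℝ u u := by positivity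
    linarith

/-- **A smooth body from labelled points.** -/
theorem exists_smooth_body {n : ℕ} (c : Fin n → ℝ) (x : Fin n → EuclideanSpace ℝ (Fin m))
    (u : Fin n → Fin n → EuclideanSpace ℝ (Fin m)) (hc : ∀ i, 0 < c i)
    (h1 : ∀ i j, i < j → inner ℝ (u i j) (x i - x j) = c i + c j)
    (h2 : ∀ i j k l, i < j → k < l → u i j = u k l ∨ |inner ℝ (u i j) (x k - x l)| < c k + c l) :
    ∃ K : Set (EuclideanSpace ℝ (Fin m)), Convex ℝ K ∧ IsCompact K ∧
      (interior K).Nonempty ∧ (∀ y ∈ K, -y ∈ K) ∧ SmoothBody K ∧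
      ∀ i j, i ≠ j → (hom K (c i) (x i) ∩ hom K (c j) (x j)).Nonempty ∧
        interior (hom K (c i) (x i)) ∩ interior (hom K (c j) (x j)) = ∅ := by
  classical
  set w : Fin n → Fin n → EuclideanSpace ℝ (Fin m) := fun i j => (c i + c j)⁻¹ • (x i - x j) with hw
  have hcc : ∀ i j, 0 < c i + c j := fun i j => add_pos (hc i) (hc j)
  have hwx : ∀ i j, x i - x j = (c i + c j) • w i j := fun i j => by
    rw [hw]
    simp only
    rw [smul_smul, mul_inv_cancel₀ (hcc i j).ne', one_smul]
  have huw : ∀ i j, i < j → inner ℝ (u i j) (w i j) = 1 := by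
    intro i j hij
    rw [hw]
    simp only
    rw [real_inner_smul_right, h1 i j hij, inv_mul_cancel₀ (hcc i j).ne']
  let N : Fin n → Fin n → EuclideanSpace ℝ (Fin m) := fun i j => ‖u i j‖⁻¹ • u i j
  -- the radius of the ball
  obtain ⟨ε, hε, hq⟩ : ∃ ε : ℝ, 0 < ε ∧ ∀ i j k l : Fin n, i < j → k < l →
      |inner ℝ (u i j) (w k l - ε • N k l)| ≤ 1 - ε * ‖u i j‖ := by
    have hev : ∀ᶠ ε in 𝓝[>] (0 : ℝ), ∀ i j k l : Fin n, i < j → k < l →
        |inner ℝ (u i j) (w k l - ε • N k l)| ≤ 1 - ε * ‖u i j‖ := by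
      rw [eventually_all]
      intro i
      rw [eventually_all]
      intro j
      rw [eventually_all]
      intro k
      rw [eventually_all]
      intro l
      by_cases hij : i < j
      swap
      · exact Eventually.of_forall fun ε h => absurd h hij
      by_cases hkl : k < l
      swap
      · exact Eventually.of_forall fun ε _ h => absurd h hkl
      simp only [hij, hkl, true_imp_iff]
      rcases h2 i j k l hij hkl with h | h
      · -- the same normal
        have hcont : Continuous fun ε : ℝ => ε * ‖u i j‖ := by fun_prop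
        have h0 : (0 : ℝ) * ‖u i j‖ < 1 := by rw [zero_mul]; norm_num
        have := (hcont.tendsto 0).eventually (gt_mem_nhds h0)
        refine (this.filter_mono nhdsWithin_le_nhds).mono fun ε h3 => ?_
        have h4 : inner ℝ (u i j) (w k l - ε • N k l) = 1 - ε * ‖u i j‖ := by
          have h5 : inner ℝ (u k l) (ε • N k l) = ε * ‖u k l‖ := by
            rw [real_inner_smul_right]
            show ε * inner ℝ (u k l) (‖u k l‖⁻¹ • u k l) = _
            rw [inner_smul_unit]
          rw [h, inner_sub_right, h5, huw k l hkl]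
        rw [h4, abs_of_pos (by linarith)]
      · -- strict inequality at `ε = 0`
        have hcont : Continuous fun ε : ℝ => |inner ℝ (u i j) (w k l - ε • N k l)| + ε * ‖u i j‖ := by
          fun_prop
        have h0 : |inner ℝ (u i j) (w k l - (0 : ℝ) • N k l)| + 0 * ‖u i j‖ < 1 := by
          rw [zero_smul, sub_zero, zero_mul, add_zero, hw]
          simp only
          rw [real_inner_smul_right, abs_mul, abs_of_pos (inv_pos.2 (hcc k l)), inv_mul_lt_one₀ (hcc k l)]
          exact h
        have := (hcont.tendsto 0).eventually (gt_mem_nhds h0)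
        refine (this.filter_mono nhdsWithin_le_nhds).mono fun ε h3 => ?_
        linarith
    obtain ⟨ε, h3, h4⟩ := (hev.and self_mem_nhdsWithin).exists
    exact ⟨ε, h4, h3⟩
  -- the points
  set S : Set (EuclideanSpace ℝ (Fin m)) := insert 0
    (⋃ p ∈ {p : Fin n × Fin n | p.1 < p.2},
      {w p.1 p.2 - ε • N p.1 p.2, -(w p.1 p.2 - ε • N p.1 p.2)}) with hS
  have hSmem : ∀ i j, i < j → w i j - ε • N i j ∈ S ∧ -(w i j - ε • N i j) ∈ S := by
    intro i j hij
    constructor
    · exact Or.inr (Set.mem_biUnion (x := (i, j)) hij (Or.inl rfl))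
    · exact Or.inr (Set.mem_biUnion (x := (i, j)) hij (Or.inr rfl))
  have hScases : ∀ y ∈ S, y = 0 ∨ ∃ i j, i < j ∧ (y = w i j - ε • N i j ∨ y = -(w i j - ε • N i j)) := by
    rintro y (h | h)
    · exact Or.inl h
    · right
      rw [Set.mem_iUnion₂] at h
      obtain ⟨p, hp, h⟩ := h
      exact ⟨p.1, p.2, hp, h⟩
  have hSfin : S.Finite := by
    apply Set.Finite.insert
    exact (Set.toFinite _).biUnion fun p _ => Set.toFinite _
  have hSneg : ∀ y ∈ S, -y ∈ S := by
    intro y hy
    rcases hScases y hy with rfl | ⟨i, j, hij, rfl | rfl⟩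
    · rw [neg_zero]; exact hy
    · exact (hSmem i j hij).2
    · rw [neg_neg]; exact (hSmem i j hij).1
  have hSslab : ∀ i j, i < j → ∀ y ∈ S, |inner ℝ (u i j) y| ≤ 1 - ε * ‖u i j‖ := by
    intro i j hij y hy
    rcases hScases y hy with rfl | ⟨k, l, hkl, rfl | rfl⟩
    · rw [inner_zero_right, abs_zero]
      exact (abs_nonneg _).trans (hq i j i j hij hij)
    · exact hq i j k l hij hkl
    · rw [inner_neg_right, abs_neg]
      exact hq i j k l hij hkl
  set K : Set (EuclideanSpace ℝ (Fin m)) := convexHull ℝ S + Metric.closedBall 0 ε with hK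
  have hPneg : ∀ y ∈ convexHull ℝ S, -y ∈ convexHull ℝ S := by
    intro y hy
    have h3 : (-S) = S := by
      ext z
      rw [Set.mem_neg]
      exact ⟨fun h => by simpa using hSneg _ h, fun h => hSneg _ h⟩
    rw [← h3, convexHull_neg, Set.neg_mem_neg]
    exact hy
  have hPslab : ∀ i j, i < j → ∀ y ∈ convexHull ℝ S, |inner ℝ (u i j) y| ≤ 1 - ε * ‖u i j‖ := by
    intro i j hij
    have h3 : ∀ y ∈ convexHull ℝ S, inner ℝ (u i j) y ≤ 1 - ε * ‖u i j‖ := by
      have h4 : Convex ℝ {y : EuclideanSpace ℝ (Fin m) | inner ℝ (u i j) y ≤ 1 - ε * ‖u i j‖} :=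
        convex_halfSpace_le ((innerSL ℝ (u i j)).toLinearMap.isLinear) _
      exact convexHull_min (fun y hy => (abs_le.1 (hSslab i j hij y hy)).2) h4
    intro y hy
    rw [abs_le']
    refine ⟨h3 y hy, ?_⟩
    rw [← inner_neg_right]
    exact h3 _ (hPneg y hy)
  have hKneg : ∀ y ∈ K, -y ∈ K := by
    rintro _ ⟨a, ha, b, hb, rfl⟩
    refine ⟨-a, hPneg a ha, -b, ?_, ?_⟩
    · rw [mem_closedBall_zero_iff, norm_neg]; exact mem_closedBall_zero_iff.1 hb
    · show -a + -b = -(a + b)
      abel
  have hKslab : ∀ i j, i < j → ∀ y ∈ K, |inner ℝ (u i j) y| ≤ 1 := by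
    rintro i j hij _ ⟨a, ha, b, hb, rfl⟩
    show |inner ℝ (u i j) (a + b)| ≤ 1
    rw [inner_add_right]
    have h3 := hPslab i j hij a ha
    have h4 : |inner ℝ (u i j) b| ≤ ‖u i j‖ * ε :=
      (abs_real_inner_le_norm _ _).trans
        (mul_le_mul_of_nonneg_left (mem_closedBall_zero_iff.1 hb) (norm_nonneg _))
    calc |inner ℝ (u i j) a + inner ℝ (u i j) b| ≤ |inner ℝ (u i j) a| + |inner ℝ (u i j) b| := abs_add_le _ _
      _ ≤ 1 := by nlinarith
  have hwK : ∀ i j, i < j → w i j ∈ K := by
    intro i j hij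
    refine ⟨w i j - ε • N i j, subset_convexHull ℝ S (hSmem i j hij).1, ε • N i j, ?_, ?_⟩
    · rw [mem_closedBall_zero_iff, norm_smul, Real.norm_eq_abs, abs_of_pos hε]
      have h3 : ‖N i j‖ ≤ 1 := by
        show ‖‖u i j‖⁻¹ • u i j‖ ≤ 1
        rw [norm_smul, norm_inv, norm_norm]
        exact inv_mul_le_one
      nlinarith
    · show w i j - ε • N i j + ε • N i j = w i j
      abel
  refine ⟨K, (convex_convexHull ℝ S).add (convex_closedBall 0 ε),
    (hSfin.isCompact_convexHull (𝕜 := ℝ)).add (isCompact_closedBall 0 ε), ?_, hKneg, smooth_add_ball _ hε, ?_⟩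
  · refine ⟨0, ?_⟩
    have h3 : Metric.ball (0 : EuclideanSpace ℝ (Fin m)) ε ⊆ K := by
      intro y hy
      exact ⟨0, subset_convexHull ℝ S (Or.inl rfl), y, Metric.ball_subset_closedBall hy, zero_add y⟩
    exact interior_maximal h3 Metric.isOpen_ball (Metric.mem_ball_self hε)
  · have main : ∀ i j, i < j → (hom K (c i) (x i) ∩ hom K (c j) (x j)).Nonempty ∧
        interior (hom K (c i) (x i)) ∩ interior (hom K (c j) (x j)) = ∅ := fun i j hij =>
      touch_of_slab (hc i) (hc j) (hwx i j) (hwK i j hij) (hKneg _ (hwK i j hij)) (huw i j hij)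
        (hKslab i j hij)
    intro i j hij
    rcases lt_or_gt_of_ne hij with h | h
    · exact main i j h
    · obtain ⟨h3, h4⟩ := main j i h
      exact ⟨by rwa [Set.inter_comm], by rwa [Set.inter_comm]⟩

end E8K
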