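import Pool.Agent.E8K.SmoothBody

/-!
# Eight pairwise tangent homothets of a smooth centrally symmetric body of `ℝ³`

Four centres with last coordinate `c i` and four with last coordinate `-c i`: the sixteen pairs between the two
groups have the common normal `(0, 0, 1)`, each of the other twelve pairs has its own.
-/

set_option autoImplicit false

namespace E8K

open C1S

/-- the ratios -/
def cI8 : Fin 8 → ℤ := ![95, 521, 20, 78, 219, 536, 19, 98]

/-- the centres -/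
def xI8 : Fin 8 → Fin 3 → ℤ :=
  ![![-188, -353, 95],
    ![-177, 407, 521],
    ![-2, 3, 20],
    ![117, -184, 78],
    ![213, 1139, -219],
    ![384, -152, -536],
    ![12, 86, -19],
    ![-156, 150, -98]]

/-- the numerators of the normals -/
def pI8 : Fin 8 → Fin 8 → Fin 3 → ℤ :=
  ![![![0, 0, 0], ![-88, -176, -440], ![-230, -115, -345], ![-173, 0, 0], ![0, 0, 1], ![0, 0, 1],
      ![0, 0, 1], ![0, 0, 1]],
    ![![0, 0, 0], ![0, 0, 0], ![-541, 3246, 6492], ![-2995, 2396, 3594], ![0, 0, 1], ![0, 0, 1],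
      ![0, 0, 1], ![0, 0, 1]],
    ![![0, 0, 0], ![0, 0, 0], ![0, 0, 0], ![-588, 294, 490], ![0, 0, 1], ![0, 0, 1], ![0, 0, 1],
      ![0, 0, 1]],
    ![![0, 0, 0], ![0, 0, 0], ![0, 0, 0], ![0, 0, 0], ![0, 0, 1], ![0, 0, 1], ![0, 0, 1], ![0, 0, 1]],
    ![![0, 0, 0], ![0, 0, 0], ![0, 0, 0], ![0, 0, 0], ![0, 0, 0], ![-302, 604, 1057],
      ![0, 3094, 6426], ![951, 634, 1902]],
    ![![0, 0, 0], ![0, 0, 0], ![0, 0, 0], ![0, 0, 0], ![0, 0, 0], ![0, 0, 0], ![4440, -2775, -4440],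
      ![3487, -1268, -2536]],
    ![![0, 0, 0], ![0, 0, 0], ![0, 0, 0], ![0, 0, 0], ![0, 0, 0], ![0, 0, 0], ![0, 0, 0],
      ![1872, 702, 2223]],
    ![![0, 0, 0], ![0, 0, 0], ![0, 0, 0], ![0, 0, 0], ![0, 0, 0], ![0, 0, 0], ![0, 0, 0], ![0, 0, 0]]]

/-- the denominators of the normals -/
def dI8 : Fin 8 → Fin 8 → ℤ :=
  ![![1, 523, 503, 305, 1, 1, 1, 1],
    ![1, 1, 8611, 6492, 1, 1, 1, 1],
    ![1, 1, 1, 985, 1, 1, 1, 1],
    ![1, 1, 1, 1, 1, 1, 1, 1],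
    ![1, 1, 1, 1, 1, 1545, 8289, 2359],
    ![1, 1, 1, 1, 1, 1, 8302, 5326],
    ![1, 1, 1, 1, 1, 1, 1, 3805],
    ![1, 1, 1, 1, 1, 1, 1, 1]]

/-- the value of the normal `i j` on the difference of the centres `k l`, times its denominator -/
def tI8 (i j k l : Fin 8) : ℤ :=
  pI8 i j 0 * (xI8 k 0 - xI8 l 0) + pI8 i j 1 * (xI8 k 1 - xI8 l 1) + pI8 i j 2 * (xI8 k 2 - xI8 l 2)

theorem cI8_pos : ∀ i, 0 < cI8 i := by decide +kernel

theorem dI8_pos : ∀ i j, 0 < dI8 i j := by decide +kernel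

theorem tI8_eq : ∀ i j, i < j → tI8 i j i j = dI8 i j * (cI8 i + cI8 j) := by decide +kernel

theorem tI8_lt : ∀ i j k l, i < j → k < l → ((∀ a, pI8 i j a = pI8 k l a) ∧ dI8 i j = dI8 k l) ∨
    (tI8 i j k l < dI8 i j * (cI8 k + cI8 l) ∧ -(dI8 i j * (cI8 k + cI8 l)) < tI8 i j k l) := by
  decide +kernel

/-- the centres in `ℝ³` -/
noncomputable def xR8 (i : Fin 8) : EuclideanSpace ℝ (Fin 3) := WithLp.toLp 2 fun a => (xI8 i a : ℝ)

/-- the normals in `ℝ³` -/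
noncomputable def uR8 (i j : Fin 8) : EuclideanSpace ℝ (Fin 3) :=
  WithLp.toLp 2 fun a => (pI8 i j a : ℝ) / (dI8 i j : ℝ)

theorem inner_uR8 (i j k l : Fin 8) :
    inner ℝ (uR8 i j) (xR8 k - xR8 l) = (tI8 i j k l : ℝ) / (dI8 i j : ℝ) := by
  rw [PiLp.inner_apply]
  simp only [RCLike.inner_apply, conj_trivial, uR8, xR8, PiLp.sub_apply, Fin.sum_univ_three]
  unfold tI8
  push_cast
  ring

/-- **Eight pairwise tangent homothets of a smooth body.** -/
theorem smooth_eight_example : ∃ (K : Set (EuclideanSpace ℝ (Fin 3))) (c : Fin 8 → ℝ)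
    (x : Fin 8 → EuclideanSpace ℝ (Fin 3)), Convex ℝ K ∧ IsCompact K ∧
      (interior K).Nonempty ∧ (∀ y ∈ K, -y ∈ K) ∧ SmoothBody K ∧ (∀ i, 0 < c i) ∧
      ∀ i j, i ≠ j → (hom K (c i) (x i) ∩ hom K (c j) (x j)).Nonempty ∧
        interior (hom K (c i) (x i)) ∩ interior (hom K (c j) (x j)) = ∅ := by
  have hd : ∀ i j, (0 : ℝ) < dI8 i j := fun i j => by exact_mod_cast dI8_pos i j
  have hc : ∀ i, (0 : ℝ) < cI8 i := fun i => by exact_mod_cast cI8_pos i
  obtain ⟨K, h1, h2, h3, h4, h5, h6⟩ := exists_smooth_body (fun i => (cI8 i : ℝ)) xR8 uR8 hc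
    (fun i j hij => by
      rw [inner_uR8, div_eq_iff (hd i j).ne', tI8_eq i j hij]
      push_cast
      ring)
    (fun i j k l hij hkl => by
      rcases tI8_lt i j k l hij hkl with ⟨h6, h7⟩ | ⟨h6, h7⟩
      · left
        unfold uR8
        rw [h7]
        congr 1
        funext a
        rw [h6 a]
      · right
        have h6' : (tI8 i j k l : ℝ) < (dI8 i j : ℝ) * ((cI8 k : ℝ) + cI8 l) := by exact_mod_cast h6
        have h7' : -((dI8 i j : ℝ) * ((cI8 k : ℝ) + cI8 l)) < (tI8 i j k l : ℝ) := by exact_mod_cast h7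
        rw [inner_uR8, abs_div, abs_of_pos (hd i j), div_lt_iff₀ (hd i j), abs_lt]
        constructor <;> linarith)
  exact ⟨K, _, xR8, h1, h2, h3, h4, h5, hc, h6⟩

end E8K
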