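import Pool.Agent.E8K.Smooth
import Pool.Agent.E8K.Simp

/-!
# Smooth bodies: at most seven members if the faces are centrally symmetric or simplices
-/

set_option autoImplicit false

namespace E8K

open C1S

/-- **Smooth bodies.**  If `K` is smooth and every exposed face of `K` is a simplex or centrally symmetric, then a
tangent family has at most seven members. -/
theorem seven_of_smooth (hcert : Cert) {K : Set (EuclideanSpace ℝ (Fin 3))} (hK : Convex ℝ K) (hKc : IsCompact K)
    (hKi : (interior K).Nonempty) {z : EuclideanSpace ℝ (Fin 3)} (hz : ∀ y ∈ K, z + z - y ∈ K)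
    (hS : SmoothBody K)
    (hF : ∀ u : EuclideanSpace ℝ (Fin 3), u ≠ 0 → SimplexFace K u ∨ SymFace K u) {n : ℕ} {c : Fin n → ℝ}
    {x : Fin n → EuclideanSpace ℝ (Fin 3)} (hc : ∀ i, 0 < c i)
    (ht : ∀ i j, i ≠ j → (hom K (c i) (x i) ∩ hom K (c j) (x j)).Nonempty ∧
      interior (hom K (c i) (x i)) ∩ interior (hom K (c j) (x j)) = ∅) : n ≤ 7 := by
  by_contra hn
  have h8 : 8 ≤ n := by omega
  have hc' : ∀ i : Fin 8, 0 < c (Fin.castLE h8 i) := fun i => hc _
  have ht' : ∀ i j : Fin 8, i ≠ j → (hom K (c (Fin.castLE h8 i)) (x (Fin.castLE h8 i)) ∩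
      hom K (c (Fin.castLE h8 j)) (x (Fin.castLE h8 j))).Nonempty ∧
      interior (hom K (c (Fin.castLE h8 i)) (x (Fin.castLE h8 i))) ∩
        interior (hom K (c (Fin.castLE h8 j)) (x (Fin.castLE h8 j))) = ∅ :=
    fun i j hij => ht _ _ fun h => hij (Fin.castLE_injective h8 h)
  obtain ⟨u, t, hu, A, B, hA, hB, hAB, hAt, hBt⟩ := plane_of_cert hcert hK hKc hKi hz
    (c := fun i => c (Fin.castLE h8 i)) (x := fun i => x (Fin.castLE h8 i)) hc' ht'
  rcases hF u hu with h | h
  · exact no_plane hK hKc hKi hz (c := fun i => c (Fin.castLE h8 i)) (x := fun i => x (Fin.castLE h8 i)) hc' ht' hu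
      h (by omega) (by omega) hAB hAt hBt
  · exact no_plane_smooth hK hKc hKi hz hS (c := fun i => c (Fin.castLE h8 i))
      (x := fun i => x (Fin.castLE h8 i)) hc' ht' hu h (by omega) (by omega) hAB hAt hBt

end E8K
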