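import Pool.Agent.E8K.SmoothBody
import Pool.Agent.ES9.Seven

/-!
# A smooth and strictly convex body from labelled points

A strictly convex body (intersection of ellipsoids) plus a small ball.
-/

set_option autoImplicit false

namespace E8K

open C1S Filter Topology Pointwise Pool.Agent.ES9

variable {m : ℕ}

/-- A strictly convex symmetric body with prescribed boundary points and normals. -/
theorem exists_strict_points {ι : Type} [Finite ι] (u z : ι → EuclideanSpace ℝ (Fin m))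
    (h1 : ∀ p, inner ℝ (u p) (z p) = 1) (h2 : ∀ p q, p ≠ q → |inner ℝ (u p) (z q)| < 1) :
    ∃ K : Set (EuclideanSpace ℝ (Fin m)), StrictConvex ℝ K ∧ IsCompact K ∧ (interior K).Nonempty ∧
      (∀ y ∈ K, -y ∈ K) ∧ (∀ p, z p ∈ K) ∧ ∀ p, ∀ y ∈ K, |inner ℝ (u p) y| ≤ 1 := by
  classical
  let U : Option ι → EuclideanSpace ℝ (Fin m) := fun p => p.elim 0 u
  let Z : Option ι → EuclideanSpace ℝ (Fin m) := fun p => p.elim 0 z
  obtain ⟨ε, hε, hq⟩ : ∃ ε : ℝ, 0 < ε ∧ ∀ (p : Option ι) (q : ι), qf (U p) (Z p) ε (z q) ≤ 1 := by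
    have hev : ∀ᶠ ε in 𝓝[>] (0 : ℝ), ∀ (p : Option ι) (q : ι), qf (U p) (Z p) ε (z q) ≤ 1 := by
      rw [eventually_all]
      intro p
      rw [eventually_all]
      intro q
      by_cases hp : p = some q
      · subst hp
        refine Eventually.of_forall fun ε => ?_
        show qf (u q) (z q) ε (z q) ≤ 1
        unfold qf
        rw [h1 q]
        simp
      · have hlt : |inner ℝ (U p) (z q)| < 1 := by
          cases p with
          | none =>
            show |inner ℝ (0 : EuclideanSpace ℝ (Fin m)) (z q)| < 1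
            rw [inner_zero_left, abs_zero]; norm_num
          | some p => exact h2 p q fun h => hp (by rw [h])
        have hcont : Continuous fun ε : ℝ => qf (U p) (Z p) ε (z q) := by
          unfold qf
          fun_prop
        have h0 : qf (U p) (Z p) 0 (z q) < 1 := by
          unfold qf
          rw [zero_mul, add_zero]
          exact (sq_lt_one_iff_abs_lt_one _).2 hlt
        have := (hcont.tendsto 0).eventually (gt_mem_nhds h0)
        exact (this.filter_mono nhdsWithin_le_nhds).mono fun ε h => h.le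
    obtain ⟨ε, h3, h4⟩ := (hev.and self_mem_nhdsWithin).exists
    exact ⟨ε, h4, h3⟩
  set K : Set (EuclideanSpace ℝ (Fin m)) := {y | ∀ p, qf (U p) (Z p) ε y ≤ 1} with hK
  have hcont : ∀ p, Continuous (qf (U p) (Z p) ε) := fun p => continuous_qf _ _ _
  refine ⟨K, strictConvex_of_qf U Z hε, ?_, ?_, fun y hy p => by rw [qf_neg]; exact hy p,
    fun q p => hq p q, ?_⟩
  · apply Metric.isCompact_of_isClosed_isBounded
    · rw [hK, Set.ofPred_forall]
      exact isClosed_iInter fun p => isClosed_le (hcont p) continuous_const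
    · rw [isBounded_iff_forall_norm_le]
      refine ⟨ε⁻¹ + 1, fun y hy => ?_⟩
      have h3 : qf (0 : EuclideanSpace ℝ (Fin m)) 0 ε y ≤ 1 := hy none
      unfold qf at h3
      simp only [inner_zero_left, smul_zero, sub_zero] at h3
      have h4 : ‖y‖ ^ 2 ≤ ε⁻¹ := by
        rw [← one_div, le_div_iff₀ hε]
        nlinarith
      nlinarith [norm_nonneg y, inv_pos.2 hε]
  · refine ⟨0, ?_⟩
    have hopen : IsOpen {y : EuclideanSpace ℝ (Fin m) | ∀ p, qf (U p) (Z p) ε y < 1} := by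
      rw [Set.ofPred_forall]
      exact isOpen_iInter_of_finite fun p => isOpen_lt (hcont p) continuous_const
    refine interior_maximal (fun y hy p => (hy p).le) hopen fun p => ?_
    unfold qf
    simp
  · intro p y hy
    have h3 : qf (u p) (z p) ε y ≤ 1 := hy (some p)
    unfold qf at h3
    have h4 : 0 ≤ ε * ‖y - (inner ℝ (u p) y : ℝ) • z p‖ ^ 2 := by positivity
    exact (sq_le_one_iff_abs_le_one _).1 (by linarith)

/-- **A smooth and strictly convex body from labelled points.** -/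
theorem exists_smooth_strict_body {n : ℕ} (c : Fin n → ℝ) (x : Fin n → EuclideanSpace ℝ (Fin m))
    (u : Fin n → Fin n → EuclideanSpace ℝ (Fin m)) (hc : ∀ i, 0 < c i)
    (h1 : ∀ i j, i < j → inner ℝ (u i j) (x i - x j) = c i + c j)
    (h2 : ∀ i j k l, i < j → k < l → (i ≠ k ∨ j ≠ l) →
      |inner ℝ (u i j) (x k - x l)| < c k + c l) :
    ∃ K : Set (EuclideanSpace ℝ (Fin m)), StrictConvex ℝ K ∧ IsCompact K ∧
      (interior K).Nonempty ∧ (∀ y ∈ K, -y ∈ K) ∧ SmoothBody K ∧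
      ∀ i j, i ≠ j → (hom K (c i) (x i) ∩ hom K (c j) (x j)).Nonempty ∧
        interior (hom K (c i) (x i)) ∩ interior (hom K (c j) (x j)) = ∅ := by
  classical
  let ι := {p : Fin n × Fin n // p.1 < p.2}
  let w : ι → EuclideanSpace ℝ (Fin m) := fun p => (c p.1.1 + c p.1.2)⁻¹ • (x p.1.1 - x p.1.2)
  let v : ι → EuclideanSpace ℝ (Fin m) := fun p => u p.1.1 p.1.2
  have hcc : ∀ i j, 0 < c i + c j := fun i j => add_pos (hc i) (hc j)
  have hwx : ∀ p : ι, x p.1.1 - x p.1.2 = (c p.1.1 + c p.1.2) • w p := fun p => by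
    show _ = (c p.1.1 + c p.1.2) • ((c p.1.1 + c p.1.2)⁻¹ • (x p.1.1 - x p.1.2))
    rw [smul_smul, mul_inv_cancel₀ (hcc _ _).ne', one_smul]
  have hvw : ∀ p, inner ℝ (v p) (w p) = 1 := by
    intro p
    show inner ℝ (u p.1.1 p.1.2) ((c p.1.1 + c p.1.2)⁻¹ • (x p.1.1 - x p.1.2)) = 1
    rw [real_inner_smul_right, h1 _ _ p.2, inv_mul_cancel₀ (hcc _ _).ne']
  have hvw' : ∀ p q, p ≠ q → |inner ℝ (v p) (w q)| < 1 := by
    intro p q hpq
    show |inner ℝ (u p.1.1 p.1.2) ((c q.1.1 + c q.1.2)⁻¹ • (x q.1.1 - x q.1.2))| < 1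
    rw [real_inner_smul_right, abs_mul, abs_of_pos (inv_pos.2 (hcc _ _)), inv_mul_lt_one₀ (hcc _ _)]
    apply h2 _ _ _ _ p.2 q.2
    by_contra hcon
    obtain ⟨h5, h6⟩ := not_or.1 hcon
    exact hpq (Subtype.ext (Prod.ext (not_not.1 h5) (not_not.1 h6)))
  let N : ι → EuclideanSpace ℝ (Fin m) := fun p => ‖v p‖⁻¹ • v p
  obtain ⟨ε, hε, hq0, hq⟩ : ∃ ε : ℝ, 0 < ε ∧ (∀ p : ι, ε * ‖v p‖ < 1) ∧ ∀ p q : ι, p ≠ q →
      |inner ℝ (v p) (w q - ε • N q)| < 1 - ε * ‖v p‖ := by
    have hev0 : ∀ᶠ ε in 𝓝[>] (0 : ℝ), ∀ p : ι, ε * ‖v p‖ < 1 := by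
      rw [eventually_all]
      intro p
      have hcont : Continuous fun ε : ℝ => ε * ‖v p‖ := by fun_prop
      have h0 : (0 : ℝ) * ‖v p‖ < 1 := by rw [zero_mul]; norm_num
      exact ((hcont.tendsto 0).eventually (gt_mem_nhds h0)).filter_mono nhdsWithin_le_nhds
    have hev : ∀ᶠ ε in 𝓝[>] (0 : ℝ), ∀ p q : ι, p ≠ q →
        |inner ℝ (v p) (w q - ε • N q)| < 1 - ε * ‖v p‖ := by
      rw [eventually_all]
      intro p
      rw [eventually_all]
      intro q
      by_cases hpq : p = q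
      · exact Eventually.of_forall fun ε h => absurd hpq h
      simp only [ne_eq, hpq, not_false_eq_true, true_imp_iff]
      have hcont : Continuous fun ε : ℝ => |inner ℝ (v p) (w q - ε • N q)| + ε * ‖v p‖ := by
        fun_prop
      have h0 : |inner ℝ (v p) (w q - (0 : ℝ) • N q)| + 0 * ‖v p‖ < 1 := by
        rw [zero_smul, sub_zero, zero_mul, add_zero]
        exact hvw' p q hpq
      have := (hcont.tendsto 0).eventually (gt_mem_nhds h0)
      refine (this.filter_mono nhdsWithin_le_nhds).mono fun ε h3 => ?_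
      linarith
    obtain ⟨ε, ⟨h3, h3'⟩, h4⟩ := ((hev0.and hev).and self_mem_nhdsWithin).exists
    exact ⟨ε, h4, h3, h3'⟩
  have hpos : ∀ p, 0 < 1 - ε * ‖v p‖ := fun p => by have := hq0 p; linarith
  obtain ⟨K, hs, hcK, hne, hsym, hz, hsl⟩ := exists_strict_points
    (fun p : ι => (1 - ε * ‖v p‖)⁻¹ • v p) (fun p : ι => w p - ε • N p)
    (fun p => by
      have h3 : inner ℝ (v p) (ε • N p) = ε * ‖v p‖ := by
        rw [real_inner_smul_right]
        show ε * inner ℝ (v p) (‖v p‖⁻¹ • v p) = _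
        rw [inner_smul_unit]
      rw [real_inner_smul_left, inner_sub_right, h3, hvw p, inv_mul_cancel₀ (hpos p).ne'])
    (fun p q hpq => by
      rw [real_inner_smul_left, abs_mul, abs_of_pos (inv_pos.2 (hpos p)), inv_mul_lt_one₀ (hpos p)]
      exact hq p q hpq)
  have hsl' : ∀ p, ∀ y ∈ K, |inner ℝ (v p) y| ≤ 1 - ε * ‖v p‖ := by
    intro p y hy
    have h3 := hsl p y hy
    rw [real_inner_smul_left, abs_mul, abs_of_pos (inv_pos.2 (hpos p)), inv_mul_le_one₀ (hpos p)] at h3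
    exact h3
  have hKneg : ∀ y ∈ K + Metric.closedBall (0 : EuclideanSpace ℝ (Fin m)) ε,
      -y ∈ K + Metric.closedBall (0 : EuclideanSpace ℝ (Fin m)) ε := by
    rintro _ ⟨a, ha, b, hb, rfl⟩
    refine ⟨-a, hsym a ha, -b, ?_, ?_⟩
    · rw [mem_closedBall_zero_iff, norm_neg]; exact mem_closedBall_zero_iff.1 hb
    · show -a + -b = -(a + b)
      abel
  have hKslab : ∀ p, ∀ y ∈ K + Metric.closedBall (0 : EuclideanSpace ℝ (Fin m)) ε,
      |inner ℝ (v p) y| ≤ 1 := by
    rintro p _ ⟨a, ha, b, hb, rfl⟩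
    show |inner ℝ (v p) (a + b)| ≤ 1
    rw [inner_add_right]
    have h3 := hsl' p a ha
    have h4 : |inner ℝ (v p) b| ≤ ‖v p‖ * ε :=
      (abs_real_inner_le_norm _ _).trans
        (mul_le_mul_of_nonneg_left (mem_closedBall_zero_iff.1 hb) (norm_nonneg _))
    calc |inner ℝ (v p) a + inner ℝ (v p) b| ≤ |inner ℝ (v p) a| + |inner ℝ (v p) b| := abs_add_le _ _
      _ ≤ 1 := by nlinarith
  have hwK : ∀ p, w p ∈ K + Metric.closedBall (0 : EuclideanSpace ℝ (Fin m)) ε := by
    intro p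
    refine ⟨w p - ε • N p, hz p, ε • N p, ?_, ?_⟩
    · rw [mem_closedBall_zero_iff, norm_smul, Real.norm_eq_abs, abs_of_pos hε]
      have h3 : ‖N p‖ ≤ 1 := by
        show ‖‖v p‖⁻¹ • v p‖ ≤ 1
        rw [norm_smul, norm_inv, norm_norm]
        exact inv_mul_le_one
      nlinarith
    · show w p - ε • N p + ε • N p = w p
      abel
  obtain ⟨a0, ha0⟩ : K.Nonempty := hne.mono interior_subset
  refine ⟨K + Metric.closedBall 0 ε, hs.add (strictConvex_closedBall ℝ 0 ε), hcK.add (isCompact_closedBall 0 ε),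
    ?_, hKneg, smooth_add_ball _ hε, ?_⟩
  · refine ⟨a0, ?_⟩
    have h3 : Metric.ball a0 ε ⊆ K + Metric.closedBall (0 : EuclideanSpace ℝ (Fin m)) ε := by
      intro y hy
      refine ⟨a0, ha0, y - a0, ?_, ?_⟩
      · rw [mem_closedBall_zero_iff, ← dist_eq_norm]
        exact (Metric.mem_ball.1 hy).le
      · show a0 + (y - a0) = y
        abel
    exact interior_maximal h3 Metric.isOpen_ball (Metric.mem_ball_self hε)
  · have main : ∀ i j, i < j → (hom (K + Metric.closedBall (0 : EuclideanSpace ℝ (Fin m)) ε) (c i) (x i) ∩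
        hom (K + Metric.closedBall (0 : EuclideanSpace ℝ (Fin m)) ε) (c j) (x j)).Nonempty ∧
        interior (hom (K + Metric.closedBall (0 : EuclideanSpace ℝ (Fin m)) ε) (c i) (x i)) ∩
        interior (hom (K + Metric.closedBall (0 : EuclideanSpace ℝ (Fin m)) ε) (c j) (x j)) = ∅ :=
      fun i j hij => touch_of_slab (hc i) (hc j) (hwx ⟨(i, j), hij⟩) (hwK ⟨(i, j), hij⟩)
        (hKneg _ (hwK ⟨(i, j), hij⟩)) (hvw ⟨(i, j), hij⟩) (hKslab ⟨(i, j), hij⟩)
    intro i j hij
    rcases lt_or_gt_of_ne hij with h | h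
    · exact main i j h
    · obtain ⟨h3, h4⟩ := main j i h
      exact ⟨by rwa [Set.inter_comm], by rwa [Set.inter_comm]⟩

/-- **Seven pairwise tangent homothets of a smooth and strictly convex body.** -/
theorem smooth_strict_seven_example : ∃ (K : Set (EuclideanSpace ℝ (Fin 3))) (c : Fin 7 → ℝ)
    (x : Fin 7 → EuclideanSpace ℝ (Fin 3)), StrictConvex ℝ K ∧ IsCompact K ∧
      (interior K).Nonempty ∧ (∀ y ∈ K, -y ∈ K) ∧ SmoothBody K ∧ (∀ i, 0 < c i) ∧
      ∀ i j, i ≠ j → (hom K (c i) (x i) ∩ hom K (c j) (x j)).Nonempty ∧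
        interior (hom K (c i) (x i)) ∩ interior (hom K (c j) (x j)) = ∅ := by
  have hd : ∀ i j, (0 : ℝ) < dI i j := fun i j => by exact_mod_cast dI_pos i j
  have hc : ∀ i, (0 : ℝ) < cI i := fun i => by exact_mod_cast cI_pos i
  obtain ⟨K, h1, h2, h3, h4, h5, h6⟩ := exists_smooth_strict_body (fun i => (cI i : ℝ)) xR uR hc
    (fun i j hij => by
      rw [inner_uR, div_eq_iff (hd i j).ne', tI_eq i j hij]
      push_cast
      ring)
    (fun i j k l hij hkl hne => by
      obtain ⟨h6, h7⟩ := tI_lt i j k l hij hkl hne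
      have h6' : (tI i j k l : ℝ) < (dI i j : ℝ) * ((cI k : ℝ) + cI l) := by exact_mod_cast h6
      have h7' : -((dI i j : ℝ) * ((cI k : ℝ) + cI l)) < (tI i j k l : ℝ) := by exact_mod_cast h7
      rw [inner_uR, abs_div, abs_of_pos (hd i j), div_lt_iff₀ (hd i j), abs_lt]
      constructor <;> linarith)
  exact ⟨K, _, xR, h1, h2, h3, h4, h5, hc, h6⟩

end E8K
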